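import Mathlib

set_option autoImplicit false
set_option linter.unusedSectionVars false

/-!
# Product weights: sections and biased coordinates
-/

namespace Pool.Agent.T2H60.HL

open Finset

variable {V L : Type} [Fintype V] [DecidableEq V] [Fintype L] [DecidableEq L]

/-- the mean of `F` if the coordinates are independent and the coordinate `u` has the weights `μ u` -/
noncomputable def M (μ : V → L → ℝ) (F : (V → L) → ℝ) : ℝ := ∑ a, F a * ∏ u, μ u (a u)

/-- weights are nonnegative with sum one -/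
def IsW (μ : V → L → ℝ) : Prop := (∀ u l, 0 ≤ μ u l) ∧ ∀ u, ∑ l, μ u l = 1

theorem M_prod (μ : V → L → ℝ) (g : V → L → ℝ) :
    M μ (fun a => ∏ u, g u (a u)) = ∏ u, ∑ l, g u l * μ u l := by
  unfold M
  rw [Finset.prod_univ_sum]
  rw [Fintype.piFinset_univ]
  apply sum_congr rfl
  intro a _
  rw [← prod_mul_distrib]

theorem M_one {μ : V → L → ℝ} (h : IsW μ) : M μ (fun _ => 1) = 1 := by
  have := M_prod μ (fun _ _ => 1)
  simp only [prod_const_one, one_mul] at this
  rw [this]
  exact prod_eq_one fun u _ => h.2 u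

theorem prod_nonneg' {μ : V → L → ℝ} (h : IsW μ) (a : V → L) : 0 ≤ ∏ u, μ u (a u) :=
  prod_nonneg fun u _ => h.1 u _

theorem M_mono {μ : V → L → ℝ} (h : IsW μ) {F G : (V → L) → ℝ} (hFG : ∀ a, F a ≤ G a) :
    M μ F ≤ M μ G :=
  sum_le_sum fun a _ => mul_le_mul_of_nonneg_right (hFG a) (prod_nonneg' h a)

theorem M_nonneg {μ : V → L → ℝ} (h : IsW μ) {F : (V → L) → ℝ} (hF : ∀ a, 0 ≤ F a) : 0 ≤ M μ F :=
  sum_nonneg fun a _ => mul_nonneg (hF a) (prod_nonneg' h a)

theorem M_le_one {μ : V → L → ℝ} (h : IsW μ) {F : (V → L) → ℝ} (hF : ∀ a, F a ≤ 1) : M μ F ≤ 1 :=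
  (M_mono h hF).trans (M_one h).le

theorem M_add (μ : V → L → ℝ) (F G : (V → L) → ℝ) :
    M μ (fun a => F a + G a) = M μ F + M μ G := by
  unfold M
  rw [← sum_add_distrib]
  exact sum_congr rfl fun a _ => by ring

theorem M_smul (μ : V → L → ℝ) (c : ℝ) (F : (V → L) → ℝ) :
    M μ (fun a => c * F a) = c * M μ F := by
  unfold M
  rw [mul_sum]
  exact sum_congr rfl fun a _ => by ring

/-- the function restricted to the event that the coordinate `u` is `l` -/
def sec (F : (V → L) → ℝ) (u : V) (l : L) (a : V → L) : ℝ := if a u = l then F a else 0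

theorem M_sec {μ : V → L → ℝ} (F : (V → L) → ℝ) (u : V) (l : L) :
    M μ (sec F u l) = μ u l * M (Function.update μ u (Pi.single l 1)) F := by
  unfold M
  rw [mul_sum]
  apply sum_congr rfl
  intro a _
  rw [← mul_prod_erase univ _ (mem_univ u), ← mul_prod_erase univ _ (mem_univ u)]
  have h1 : ∏ v ∈ univ.erase u, Function.update μ u (Pi.single l 1) v (a v) =
      ∏ v ∈ univ.erase u, μ v (a v) := by
    apply prod_congr rfl
    intro v hv
    rw [Function.update_of_ne (ne_of_mem_erase hv)]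
  rw [h1, Function.update_self]
  unfold sec
  by_cases h : a u = l
  · subst h
    simp
    ring
  · rw [if_neg h, Pi.single_eq_of_ne h]
    ring

/-- the number of the coordinates in `B` which are `l` -/
def cnt (B : Finset V) (l : L) (a : V → L) : ℕ := (B.filter fun u => a u = l).card

theorem M_cnt (μ : V → L → ℝ) (F : (V → L) → ℝ) (B : Finset V) (l : L) :
    M μ (fun a => (cnt B l a : ℝ) * F a) = ∑ u ∈ B, M μ (sec F u l) := by
  unfold M
  rw [sum_comm]
  apply sum_congr rfl
  intro a _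
  have h1 : (cnt B l a : ℝ) = ∑ u ∈ B, if a u = l then (1 : ℝ) else 0 := by
    unfold cnt
    rw [card_filter]
    push_cast
    rfl
  simp only [h1, sec]
  rw [sum_mul, sum_mul]
  apply sum_congr rfl
  intro u _
  split_ifs <;> simp

theorem M_exp_cnt {μ : V → L → ℝ} (h : IsW μ) (B : Finset V) (l : L) (ρ c : ℝ)
    (hB : ∀ u ∈ B, μ u l = ρ) :
    M μ (fun a => Real.exp (c * (cnt B l a : ℝ))) = (1 + (Real.exp c - 1) * ρ) ^ B.card := by
  have h1 : (fun a : V → L => Real.exp (c * (cnt B l a : ℝ))) =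
      fun a => ∏ u, (if u ∈ B ∧ a u = l then Real.exp c else 1) := by
    funext a
    have h2 : ∏ u, (if u ∈ B ∧ a u = l then Real.exp c else 1) =
        ∏ u ∈ B, (if a u = l then Real.exp c else 1) := by
      rw [← prod_subset (subset_univ B)]
      · apply prod_congr rfl
        intro u hu
        simp [hu]
      · intro u _ hu
        simp [hu]
    rw [h2, prod_ite, prod_const_one, mul_one, prod_const, mul_comm, Real.exp_nat_mul]
    rfl
  rw [h1]
  rw [M_prod μ (fun u x => if u ∈ B ∧ x = l then Real.exp c else 1)]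
  rw [← prod_subset (subset_univ B)]
  · rw [← prod_const]
    apply prod_congr rfl
    intro u hu
    have h3 : ∀ x, (if u ∈ B ∧ x = l then Real.exp c else 1) * μ u x =
        μ u x + (if x = l then (Real.exp c - 1) * μ u l else 0) := by
      intro x
      by_cases hx : x = l
      · subst hx
        simp [hu]
        ring
      · simp [hx]
    rw [sum_congr rfl fun x _ => h3 x, sum_add_distrib, h.2 u, sum_ite_eq' univ l, if_pos (mem_univ _),
      hB u hu]
  · intro u _ hu
    simp [hu, h.2 u]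

/-- **Biased coordinates.** -/
theorem bias {μ : V → L → ℝ} (h : IsW μ) {F : (V → L) → ℝ} (hF0 : ∀ a, 0 ≤ F a) (hF1 : ∀ a, F a ≤ 1)
    (B : Finset V) (l : L) (ρ : ℝ) (hρ : 0 ≤ ρ) (hB : ∀ u ∈ B, μ u l = ρ)
    (hb : ∀ u ∈ B, M μ (sec F u l) ≤ ρ / 8 * M μ F) :
    M μ F ≤ Real.exp (-(ρ * B.card / 2)) := by
  have hJ : Real.exp (-(ρ * B.card / 8)) * M μ F ≤
      M μ (fun a => Real.exp (-1 * (cnt B l a : ℝ)) * F a) := by
    have h1 : ∀ a : V → L, Real.exp (-(ρ * B.card / 8)) * ((1 + ρ * B.card / 8) * F a +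
        (-1) * ((cnt B l a : ℝ) * F a)) ≤ Real.exp (-1 * (cnt B l a : ℝ)) * F a := by
      intro a
      have h2 : (ρ * B.card / 8 - (cnt B l a : ℝ)) + 1 ≤ Real.exp (ρ * B.card / 8 - (cnt B l a : ℝ)) :=
        Real.add_one_le_exp _
      have h3 : Real.exp (-1 * (cnt B l a : ℝ)) =
          Real.exp (-(ρ * B.card / 8)) * Real.exp (ρ * B.card / 8 - (cnt B l a : ℝ)) := by
        rw [← Real.exp_add]
        congr 1
        ring
      rw [h3]
      have h4 := mul_le_mul_of_nonneg_right h2 (hF0 a)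
      have h5 := mul_le_mul_of_nonneg_left h4 (Real.exp_pos (-(ρ * B.card / 8))).le
      calc _ = Real.exp (-(ρ * B.card / 8)) * ((ρ * B.card / 8 - (cnt B l a : ℝ) + 1) * F a) := by
            ring
        _ ≤ _ := h5
        _ = _ := by ring
    have h6 := M_mono h h1
    refine le_trans ?_ h6
    rw [M_smul, M_add, M_smul, M_smul, M_cnt]
    apply mul_le_mul_of_nonneg_left _ (Real.exp_pos _).le
    have h7 : ∑ u ∈ B, M μ (sec F u l) ≤ ∑ u ∈ B, ρ / 8 * M μ F := sum_le_sum hb
    rw [sum_const, nsmul_eq_mul] at h7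
    nlinarith
  have hU : M μ (fun a => Real.exp (-1 * (cnt B l a : ℝ)) * F a) ≤
      (1 + (Real.exp (-1) - 1) * ρ) ^ B.card := by
    rw [← M_exp_cnt h B l ρ (-1) hB]
    apply M_mono h
    intro a
    have := hF1 a
    have h2 := Real.exp_pos (-1 * (cnt B l a : ℝ))
    nlinarith
  have he : Real.exp (-1) ≤ 3 / 8 := by
    have h1 := Real.exp_one_gt_d9
    rw [Real.exp_neg, inv_le_comm₀ (Real.exp_pos 1) (by norm_num)]
    linarith
  have hV : (1 + (Real.exp (-1) - 1) * ρ) ^ B.card ≤ Real.exp (-(5 / 8 * ρ * B.card)) := by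
    rcases B.eq_empty_or_nonempty with hB0 | ⟨u, hu⟩
    · simp [hB0]
    have h0 : 0 ≤ 1 + (Real.exp (-1) - 1) * ρ := by
      have h1 : ρ ≤ 1 := by
        rw [← hB u hu, ← h.2 u]
        exact single_le_sum (fun x _ => h.1 u x) (mem_univ l)
      have := Real.exp_pos (-1)
      nlinarith
    have h1 : 1 + (Real.exp (-1) - 1) * ρ ≤ Real.exp (-(5 / 8 * ρ)) := by
      have := Real.add_one_le_exp (-(5 / 8 * ρ))
      nlinarith
    calc (1 + (Real.exp (-1) - 1) * ρ) ^ B.card ≤ (Real.exp (-(5 / 8 * ρ))) ^ B.card :=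
          pow_le_pow_left₀ h0 h1 _
      _ = _ := by
          rw [← Real.exp_nat_mul]
          congr 1
          ring
  have h8 : Real.exp (-(ρ * B.card / 8)) * M μ F ≤ Real.exp (-(5 / 8 * ρ * B.card)) :=
    hJ.trans (hU.trans hV)
  have h9 : Real.exp (-(5 / 8 * ρ * B.card)) =
      Real.exp (-(ρ * B.card / 8)) * Real.exp (-(ρ * B.card / 2)) := by
    rw [← Real.exp_add]
    congr 1
    ring
  rw [h9] at h8
  exact le_of_mul_le_mul_left h8 (Real.exp_pos _)

end Pool.Agent.T2H60.HL
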