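import Mathlib

set_option autoImplicit false

/-!
# Chevalley-Warning for families of sets
-/

namespace Pool.Agent.T2H60.HL

open Finset MvPolynomial

variable {D : Type} [Fintype D] [DecidableEq D] {p : ℕ} [hp : Fact p.Prime]

/-- the value of the polynomial with coefficients `c` at the indicator of `A` -/
def qv (c : Finset D → ZMod p) (A : Finset D) : ZMod p :=
  ∑ M : Finset D, c M * ∏ d ∈ M, if d ∈ A then 1 else 0

theorem cwCore {ι τ : Type} [Fintype τ] [DecidableEq τ] (m : ℕ)
    (G : D → MvPolynomial τ (ZMod p)) (hG : ∀ d, (G d).totalDegree ≤ p - 1)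
    (A : (τ → ZMod p) → Finset D) (hA : ∀ y d, eval y (G d) = if d ∈ A y then 1 else 0)
    (I : Finset ι) (c : ι → Finset D → ZMod p) (hc : ∀ i M, m < M.card → c i M = 0)
    (hI : I.card * (m * (p - 1)) < Fintype.card τ) :
    ∃ y : τ → ZMod p, y ≠ 0 ∧ ∀ i ∈ I, qv (c i) (A y) = qv (c i) (A 0) := by
  classical
  set f : ι → MvPolynomial τ (ZMod p) := fun i =>
    (∑ M : Finset D, C (c i M) * ∏ d ∈ M, G d) - C (qv (c i) (A 0)) with hf
  have hev : ∀ i y, eval y (f i) = qv (c i) (A y) - qv (c i) (A 0) := by
    intro i y
    simp only [hf, map_sub, map_sum, map_mul, eval_C, map_prod, hA]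
    rfl
  have hdeg : ∀ i, (f i).totalDegree ≤ m * (p - 1) := by
    intro i
    simp only [hf]
    refine (totalDegree_sub_C_le _ _).trans ?_
    apply totalDegree_finsetSum_le
    intro M _
    by_cases hM : m < M.card
    · rw [hc i M hM]
      simp
    · push Not at hM
      refine (totalDegree_mul _ _).trans ?_
      rw [totalDegree_C, zero_add]
      refine (totalDegree_finsetProd _ _).trans ?_
      calc ∑ d ∈ M, (G d).totalDegree ≤ ∑ d ∈ M, (p - 1) := sum_le_sum fun d _ => hG d
        _ = M.card * (p - 1) := by rw [sum_const, smul_eq_mul]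
        _ ≤ m * (p - 1) := Nat.mul_le_mul_right _ hM
  have hsum : ∑ i ∈ I, (f i).totalDegree < Fintype.card τ := by
    refine lt_of_le_of_lt ?_ hI
    calc ∑ i ∈ I, (f i).totalDegree ≤ ∑ i ∈ I, m * (p - 1) := sum_le_sum fun i _ => hdeg i
      _ = _ := by rw [sum_const, smul_eq_mul]
  have hcw := char_dvd_card_solutions_of_sum_lt p hsum
  have h0 : ∀ i ∈ I, eval 0 (f i) = 0 := by
    intro i _
    rw [hev]
    simp
  by_contra hcon
  push Not at hcon
  have huniq : Fintype.card { x : τ → ZMod p // ∀ i ∈ I, eval x (f i) = 0 } = 1 := by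
    rw [Fintype.card_eq_one_iff]
    refine ⟨⟨0, h0⟩, ?_⟩
    rintro ⟨y, hy⟩
    by_contra hne
    have hy0 : y ≠ 0 := by
      rintro rfl
      exact hne rfl
    obtain ⟨i, hi, hne2⟩ := hcon y hy0
    apply hne2
    have := hy i hi
    rw [hev] at this
    exact sub_eq_zero.1 this
  rw [huniq] at hcw
  exact hp.out.one_lt.ne' (Nat.dvd_one.1 hcw)

/-- a nonempty pattern which the cells cannot distinguish from the empty pattern -/
theorem cwOne {ι : Type} (m : ℕ) (I : Finset ι) (c : ι → Finset D → ZMod p)
    (hc : ∀ i M, m < M.card → c i M = 0) (hI : I.card * (m * (p - 1)) < Fintype.card D) :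
    ∃ L : Finset D, L.Nonempty ∧ ∀ i ∈ I, qv (c i) L = qv (c i) ∅ := by
  classical
  obtain ⟨y, hy, h⟩ := cwCore m (fun d : D => (X d : MvPolynomial D (ZMod p)) ^ (p - 1))
    (fun d => by rw [totalDegree_X_pow]) (fun y => univ.filter fun d => y d ≠ 0)
    (by
      intro y d
      simp only [map_pow, eval_X, mem_filter, mem_univ, true_and]
      split_ifs with hd
      · exact ZMod.pow_card_sub_one_eq_one hd
      · push Not at hd
        rw [hd, zero_pow]
        have := hp.out.one_lt
        omega) I c hc hI
  refine ⟨univ.filter fun d => y d ≠ 0, ?_, ?_⟩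
  · by_contra hne
    rw [not_nonempty_iff_eq_empty] at hne
    apply hy
    funext d
    by_contra hd
    have : d ∈ univ.filter fun d => y d ≠ 0 := by
      simp only [mem_filter, mem_univ, true_and]
      exact hd
    rw [hne] at this
    simp at this
  · intro i hi
    have := h i hi
    simpa using this

/-- a small pattern -/
theorem cwTwo {ι : Type} (m : ℕ) (I : Finset ι) (c : ι → Finset D → ZMod p)
    (hc : ∀ i M, m < M.card → c i M = 0) (d0 : D) : ∀ (N : ℕ) (L : Finset D), L.card ≤ N → d0 ∈ L →
    (∀ i ∈ I, qv (c i) L = qv (c i) ∅) →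
    ∃ L' : Finset D, d0 ∈ L' ∧ L'.card ≤ I.card * (m * (p - 1)) + 1 ∧
      ∀ i ∈ I, qv (c i) L' = qv (c i) ∅ := by
  classical
  intro N
  induction N with
  | zero =>
    intro L hL hd
    have := card_pos.2 ⟨d0, hd⟩
    omega
  | succ N ih =>
    intro L hL hd h
    by_cases hsmall : L.card ≤ I.card * (m * (p - 1)) + 1
    · exact ⟨L, hd, hsmall, h⟩
    · push Not at hsmall
      have hcard : Fintype.card {d // d ∈ L.erase d0} = L.card - 1 := by
        rw [Fintype.card_coe, card_erase_of_mem hd]
      obtain ⟨y, hy, hy2⟩ := cwCore (τ := {d // d ∈ L.erase d0}) m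
        (fun d : D => if h : d ∈ L.erase d0 then
          (1 - (X ⟨d, h⟩ : MvPolynomial {d // d ∈ L.erase d0} (ZMod p)) ^ (p - 1))
          else if d = d0 then 1 else 0)
        (by
          intro d
          split_ifs with h1 h2
          · refine (totalDegree_sub _ _).trans ?_
            rw [totalDegree_X_pow]
            simp
          · simp
          · simp)
        (fun y => L.filter fun d => ∀ h : d ∈ L.erase d0, y ⟨d, h⟩ = 0)
        (by
          intro y d
          simp only [mem_filter]
          split_ifs with h1 h2 h3 h4 h5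
          · have := h2.2 h1
            simp only [map_sub, map_one, map_pow, eval_X, this]
            rw [zero_pow, sub_zero]
            have := hp.out.one_lt
            omega
          · have hne : y ⟨d, h1⟩ ≠ 0 := by
              intro h0
              exact h2 ⟨mem_of_mem_erase h1, fun _ => h0⟩
            simp only [map_sub, map_one, map_pow, eval_X]
            rw [ZMod.pow_card_sub_one_eq_one hne, sub_self]
          · simp
          · exfalso
            apply h4
            refine ⟨by rw [h3]; exact hd, fun h => absurd h h1⟩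
          · exfalso
            apply h1
            rw [mem_erase]
            exact ⟨h3, h5.1⟩
          · simp) I c hc (by rw [hcard]; omega)
      have hA0 : (L.filter fun d => ∀ h : d ∈ L.erase d0, (0 : {d // d ∈ L.erase d0} → ZMod p) ⟨d, h⟩ = 0) = L := by
        rw [filter_eq_self]
        intro d _ _
        rfl
      rw [hA0] at hy2
      apply ih (L.filter fun d => ∀ h : d ∈ L.erase d0, y ⟨d, h⟩ = 0)
      · have hlt : (L.filter fun d => ∀ h : d ∈ L.erase d0, y ⟨d, h⟩ = 0) ⊂ L := by
          rw [filter_ssubset]
          by_contra hcon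
          push Not at hcon
          apply hy
          funext d
          exact hcon d.1 (mem_of_mem_erase d.2) d.2
        have := card_lt_card hlt
        omega
      · rw [mem_filter]
        exact ⟨hd, fun h => absurd h (notMem_erase d0 L)⟩
      · intro i hi
        rw [hy2 i hi, h i hi]

end Pool.Agent.T2H60.HL
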