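import Pool.Agent.T2H60.HL.Hit

set_option autoImplicit false
set_option linter.unusedSectionVars false

/-!
# The families of sets given by labellings
-/

namespace Pool.Agent.T2H60.HL

open Finset

variable {k : ℕ}

/-- the positions with the label `i`, if there are at most `n` of them -/
noncomputable def part (n : ℕ) {v : ℕ} (a : Fin v → Option (Fin k)) (i : Fin k) : Finset ℕ :=
  if cnt univ (some i) a ≤ n then (univ.filter fun u => a u = some i).map Fin.valEmbedding else ∅

/-- the set number `i`: it has exactly `n` elements -/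
noncomputable def fam (n : ℕ) {v : ℕ} (off : ℕ) (a : Fin v → Option (Fin k)) (i : Fin k) :
    Finset ℕ :=
  part n a i ∪ (range (n - (part n a i).card)).map (addLeftEmbedding (off + i * n))

theorem mem_part {n v : ℕ} {a : Fin v → Option (Fin k)} {i : Fin k} {x : ℕ} :
    x ∈ part n a i ↔ cnt univ (some i) a ≤ n ∧ ∃ h : x < v, a ⟨x, h⟩ = some i := by
  unfold part
  split_ifs with h
  · simp only [mem_map, mem_filter, mem_univ, true_and, Fin.valEmbedding_apply]
    constructor
    · rintro ⟨u, hu, rfl⟩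
      exact ⟨h, u.2, hu⟩
    · rintro ⟨_, hx, hu⟩
      exact ⟨⟨x, hx⟩, hu, rfl⟩
  · simp [h]

theorem card_part (n v : ℕ) (a : Fin v → Option (Fin k)) (i : Fin k) : (part n a i).card ≤ n := by
  unfold part
  split_ifs with h
  · rw [card_map]
    exact h
  · simp

theorem mem_fam {n v off : ℕ} {a : Fin v → Option (Fin k)} {i : Fin k} {x : ℕ} :
    x ∈ fam n off a i ↔ x ∈ part n a i ∨
      ∃ r, r < n - (part n a i).card ∧ off + i * n + r = x := by
  unfold fam
  rw [mem_union, mem_map]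
  simp only [mem_range, addLeftEmbedding_apply]

theorem card_fam (n v off : ℕ) (hoff : v ≤ off) (a : Fin v → Option (Fin k)) (i : Fin k) :
    (fam n off a i).card = n := by
  unfold fam
  rw [card_union_of_disjoint, card_map, card_range]
  · have := card_part n v a i
    omega
  · rw [disjoint_left]
    intro x hx hx2
    rw [mem_part] at hx
    obtain ⟨_, h, _⟩ := hx
    rw [mem_map] at hx2
    obtain ⟨r, _, hr⟩ := hx2
    simp only [addLeftEmbedding_apply] at hr
    have : off ≤ x := by rw [← hr]; nlinarith [Nat.zero_le ((i : ℕ) * n)]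
    omega

theorem fam_lt {n v off w : ℕ} (hv : v ≤ w) (hoff : off + k * n ≤ w) {a : Fin v → Option (Fin k)}
    {i : Fin k} {x : ℕ} (hx : x ∈ fam n off a i) : x < w := by
  rw [mem_fam] at hx
  rcases hx with hx | ⟨r, hr, rfl⟩
  · obtain ⟨_, h, _⟩ := mem_part.1 hx
    omega
  · have h1 : ((i : ℕ) + 1) * n ≤ k * n := Nat.mul_le_mul_right _ i.2
    have h2 : ((i : ℕ) + 1) * n = i * n + n := by ring
    omega

theorem inter_fam {n v : ℕ} (a b : Fin v → Option (Fin k)) (i j : Fin k) :
    (fam n v a i ∩ fam n (v + k * n) b j).Nonempty ↔ (part n a i ∩ part n b j).Nonempty := by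
  constructor
  · rintro ⟨x, hx⟩
    rw [mem_inter, mem_fam, mem_fam] at hx
    obtain ⟨h1 | ⟨r, hr, hr2⟩, h2 | ⟨r', hr', hr2'⟩⟩ := hx
    · exact ⟨x, mem_inter.2 ⟨h1, h2⟩⟩
    · exfalso
      obtain ⟨_, h, _⟩ := mem_part.1 h1
      omega
    · exfalso
      obtain ⟨_, h, _⟩ := mem_part.1 h2
      omega
    · exfalso
      have h1 : ((i : ℕ) + 1) * n ≤ k * n := Nat.mul_le_mul_right _ i.2
      have h2 : ((i : ℕ) + 1) * n = i * n + n := by ring
      omega
  · rintro ⟨x, hx⟩
    rw [mem_inter] at hx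
    exact ⟨x, mem_inter.2 ⟨mem_fam.2 (Or.inl hx.1), mem_fam.2 (Or.inl hx.2)⟩⟩

/-- no common position: disjoint sets -/
theorem not_inter {n v : ℕ} (a b : Fin v → Option (Fin k)) (i j : Fin k)
    (h : ¬ ∃ u, a u = some i ∧ b u = some j) :
    ¬ (fam n v a i ∩ fam n (v + k * n) b j).Nonempty := by
  rw [inter_fam]
  rintro ⟨x, hx⟩
  rw [mem_inter, mem_part, mem_part] at hx
  obtain ⟨⟨_, h1, h2⟩, ⟨_, _, h3⟩⟩ := hx
  exact h ⟨_, h2, h3⟩

theorem inter_of {n v : ℕ} (a b : Fin v → Option (Fin k)) (i j : Fin k)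
    (h : ∃ u, a u = some i ∧ b u = some j) (ha : cnt univ (some i) a ≤ n)
    (hb : cnt univ (some j) b ≤ n) : (fam n v a i ∩ fam n (v + k * n) b j).Nonempty := by
  rw [inter_fam]
  obtain ⟨u, h1, h2⟩ := h
  exact ⟨u, mem_inter.2 ⟨mem_part.2 ⟨ha, u.2, h1⟩, mem_part.2 ⟨hb, u.2, h2⟩⟩⟩

end Pool.Agent.T2H60.HL
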