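import Pool.Agent.T2H60.HL.Step

set_option autoImplicit false
set_option linter.unusedSectionVars false

/-!
# Large rectangles contain instances with every small pattern of intersections
-/

namespace Pool.Agent.T2H60.HL

open Finset

variable {V : Type} [Fintype V] [DecidableEq V] {k : ℕ}

theorem live_update (e : V → Option (Fin k × Fin k)) (u : V) (d : Fin k × Fin k)
    (hu : e u = none) : (live (Function.update e u (some d))).card + 1 = (live e).card := by
  have h1 : live (Function.update e u (some d)) = (live e).erase u := by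
    ext v
    rw [mem_live, mem_erase, mem_live]
    by_cases hv : v = u
    · subst hv
      simp
    · simp [hv]
  rw [h1, card_erase_of_mem (mem_live.2 hu)]
  have : 0 < (live e).card := card_pos.2 ⟨u, mem_live.2 hu⟩
  omega

section

variable (hk : 0 < k) (F G : (V → Option (Fin k)) → ℝ)
  (hF0 : ∀ a, 0 ≤ F a) (hF1 : ∀ a, F a ≤ 1) (hG0 : ∀ a, 0 ≤ G a) (hG1 : ∀ a, G a ≤ 1)

include hk hF0 hF1 hG0 hG1 in
/-- planting a list of intersections -/
theorem plant (τ : ℝ) (hτ : 0 ≤ τ) : ∀ (l : List (Fin k × Fin k)) (e : V → Option (Fin k × Fin k)),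
    1056 * k * τ + l.length ≤ (live e).card →
    320 * (Real.exp (-τ) * 2 ^ Fintype.card V) * 4096 ^ l.length ≤ Psi e F G →
    ∃ e' : V → Option (Fin k × Fin k), (∀ d ∈ l, ∃ u, e' u = some d) ∧
      (∀ u d, e u = some d → e' u = some d) ∧
      (∀ u d, e' u = some d → e u = some d ∨ d ∈ l) ∧ 0 < Psi e' F G := by
  intro l
  induction l with
  | nil =>
    intro e _ h2
    refine ⟨e, by simp, fun u d h => h, fun u d h => Or.inl h, ?_⟩
    refine lt_of_lt_of_le ?_ h2
    positivity
  | cons d l ih =>
    intro e h1 h2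
    have hpos : (0 : ℝ) < 320 * (Real.exp (-τ) * 2 ^ Fintype.card V) := by positivity
    have h4 : (1 : ℝ) ≤ 4096 ^ l.length := one_le_pow₀ (by norm_num)
    have hlen : ((d :: l).length : ℝ) = l.length + 1 := by simp
    rw [hlen] at h1
    have hkτ : (0 : ℝ) ≤ 1056 * k * τ := by positivity
    have hll : (0 : ℝ) ≤ l.length := by positivity
    have hv0 : 0 < (live e).card := by
      have : (0 : ℝ) < (live e).card := by linarith
      exact_mod_cast this
    have h2' : 320 * (Real.exp (-τ) * 2 ^ Fintype.card V) * 4096 ^ l.length * 4096 ≤ Psi e F G := by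
      refine le_trans (le_of_eq ?_) h2
      rw [List.length_cons, pow_succ]
      ring
    obtain ⟨u, hu, hstep⟩ := step hk e F G hF0 hF1 hG0 hG1 d.1 d.2 τ hτ (by linarith) hv0 (by nlinarith)
    have hc := live_update e u d hu
    have hc' : ((live (Function.update e u (some d))).card : ℝ) + 1 = (live e).card := by
      exact_mod_cast hc
    obtain ⟨e', q1, q2, q3, q4⟩ := ih (Function.update e u (some d)) (by linarith) (by
      have : Psi e F G / 4096 ≤ Psi (Function.update e u (some d)) F G := hstep
      linarith)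
    refine ⟨e', ?_, ?_, ?_, q4⟩
    · intro x hx
      rcases List.mem_cons.1 hx with hx | hx
      · subst hx
        exact ⟨u, q2 u x (by simp)⟩
      · exact q1 x hx
    · intro w x hw
      apply q2
      have : w ≠ u := by
        rintro rfl
        rw [hu] at hw
        cases hw
      rw [Function.update_of_ne this, hw]
    · intro w x hw
      rcases q3 w x hw with h | h
      · by_cases hwu : w = u
        · subst hwu
          rw [Function.update_self] at h
          cases h
          exact Or.inr (by simp)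
        · rw [Function.update_of_ne hwu] at h
          exact Or.inl h
      · exact Or.inr (List.mem_cons_of_mem _ h)

include hF0 hG0 in
/-- instances of a state of positive weight -/
theorem exists_of_psi (e : V → Option (Fin k × Fin k)) (h : 0 < Psi e F G) :
    ∃ a b : V → Option (Fin k), 0 < F a ∧ 0 < G b ∧
      (∀ u d, e u = some d → a u = some d.1 ∧ b u = some d.2) ∧
      (∀ u, e u = none → a u = none ∨ b u = none) := by
  unfold Psi at h
  obtain ⟨z, hz⟩ : ∃ z : V → Bool, 0 < M (mu Prod.fst z e) F * M (mu Prod.snd (fun u => !z u) e) G := by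
    by_contra hcon
    push Not at hcon
    exact absurd h (not_lt.2 (sum_nonpos fun z _ => hcon z))
  have key : ∀ (π : Fin k × Fin k → Fin k) (y : V → Bool) (H : (V → Option (Fin k)) → ℝ),
      (∀ a, 0 ≤ H a) → M (mu π y e) H ≠ 0 → ∃ a, 0 < H a ∧ (∀ u d, e u = some d → a u = some (π d)) ∧
        (∀ u, e u = none → y u = false → a u = none) := by
    intro π y H hH hne
    unfold M at hne
    obtain ⟨a, _, ha⟩ := exists_ne_zero_of_sum_ne_zero hne
    have ha1 : H a ≠ 0 := left_ne_zero_of_mul ha
    have ha2 : ∀ u, mu π y e u (a u) ≠ 0 := by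
      intro u
      exact (prod_ne_zero_iff.1 (right_ne_zero_of_mul ha)) u (mem_univ u)
    refine ⟨a, lt_of_le_of_ne (hH a) (Ne.symm ha1), ?_, ?_⟩
    · intro u d hd
      by_contra hcon
      apply ha2 u
      unfold mu
      rw [hd]
      exact Pi.single_eq_of_ne hcon 1
    · intro u hu hy
      by_contra hcon
      apply ha2 u
      unfold mu
      rw [hu]
      simp only [hy]
      exact Pi.single_eq_of_ne hcon 1
  obtain ⟨a, ha1, ha2, ha3⟩ := key Prod.fst z F hF0 (left_ne_zero_of_mul hz.ne')
  obtain ⟨b, hb1, hb2, hb3⟩ := key Prod.snd (fun u => !z u) G hG0 (right_ne_zero_of_mul hz.ne')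
  refine ⟨a, b, ha1, hb1, fun u d h => ⟨ha2 u d h, hb2 u d h⟩, ?_⟩
  intro u hu
  by_cases hzu : z u = true
  · right
    exact hb3 u hu (by simp [hzu])
  · left
    exact ha3 u hu (by simpa using hzu)

theorem live_none : (live (fun _ : V => (none : Option (Fin k × Fin k)))).card = Fintype.card V := by
  simp [live]

/-- the weight of a rectangle -/
noncomputable def W (F G : (V → Option (Fin k)) → ℝ) : ℝ := Psi (fun _ => none) F G

include hk hF0 hF1 hG0 hG1 in
/-- **Hitting lemma.** -/
theorem hit (l : List (Fin k × Fin k)) (τ δ : ℝ) (hτ : 0 ≤ τ)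
    (hV : 1056 * k * τ + l.length ≤ Fintype.card V)
    (hδ : 320 * Real.exp (-τ) * 4096 ^ l.length ≤ δ) (hW : δ * 2 ^ Fintype.card V ≤ W F G) :
    ∃ a b : V → Option (Fin k), 0 < F a ∧ 0 < G b ∧
      ∀ i j, (i, j) ∈ l ↔ ∃ u, a u = some i ∧ b u = some j := by
  obtain ⟨e', q1, _, q3, q4⟩ := plant hk F G hF0 hF1 hG0 hG1 τ hτ l (fun _ => none)
    (by rw [live_none]; exact hV) (by
      refine le_trans ?_ hW
      have : (0 : ℝ) < 2 ^ Fintype.card V := by positivity
      calc _ = 320 * Real.exp (-τ) * 4096 ^ l.length * 2 ^ Fintype.card V := by ring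
        _ ≤ _ := mul_le_mul_of_nonneg_right hδ this.le)
  obtain ⟨a, b, ha, hb, hab, hn⟩ := exists_of_psi F G hF0 hG0 e' q4
  refine ⟨a, b, ha, hb, fun i j => ⟨fun h => ?_, ?_⟩⟩
  · obtain ⟨u, hu⟩ := q1 (i, j) h
    exact ⟨u, hab u _ hu⟩
  · rintro ⟨u, hu1, hu2⟩
    cases hu : e' u with
    | none =>
      rcases hn u hu with h | h
      · rw [h] at hu1
        cases hu1
      · rw [h] at hu2
        cases hu2
    | some d =>
      obtain ⟨h1, h2⟩ := hab u d hu
      rw [hu1] at h1
      rw [hu2] at h2
      cases h1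
      cases h2
      rcases q3 u d hu with h | h
      · cases h
      · exact h

end

/-! ### Sizes -/

theorem M_exp_cnt_le {π : Fin k × Fin k → Fin k} (hk : 0 < k) (z : V → Bool) (i : Fin k) :
    M (mu π z (fun _ => none)) (fun a => Real.exp ((cnt univ (some i) a : ℕ) : ℝ)) ≤
      Real.exp ((Fintype.card V : ℝ) / k) := by
  have hkR : (0 : ℝ) < k := by exact_mod_cast hk
  have h1 : (fun a : V → Option (Fin k) => Real.exp ((cnt univ (some i) a : ℕ) : ℝ)) =
      fun a => ∏ u, (fun _ x => if x = some i then Real.exp 1 else 1 : V → Option (Fin k) → ℝ) u (a u) := by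
    funext a
    rw [prod_ite, prod_const_one, mul_one, prod_const, ← Real.exp_nat_mul]
    simp [cnt]
  rw [h1, M_prod (mu π z (fun _ => none))
    (fun _ x => if x = some i then Real.exp 1 else 1 : V → Option (Fin k) → ℝ)]
  have h2 : ∀ u : V, ∑ l, (if l = some i then Real.exp 1 else 1) * mu π z (fun _ => none) u l ≤
      Real.exp (1 / k) := by
    intro u
    have hw := mu_isW hk π z (fun _ : V => none)
    have h3 : ∀ x, (if x = some i then Real.exp 1 else 1) * mu π z (fun _ => none) u x =
        mu π z (fun _ => none) u x +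
          (if x = some i then (Real.exp 1 - 1) * mu π z (fun _ => none) u (some i) else 0) := by
      intro x
      by_cases hx : x = some i
      · subst hx
        simp
        ring
      · simp [hx]
    rw [sum_congr rfl fun x _ => h3 x, sum_add_distrib, hw.2 u, sum_ite_eq' univ (some i),
      if_pos (mem_univ _)]
    have h4 : mu π z (fun _ => none) u (some i) ≤ 1 / (2 * k) := by
      unfold mu
      simp only
      split_ifs
      · exact le_rfl
      · rw [Pi.single_eq_of_ne (by simp)]
        positivity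
    have h5 : Real.exp 1 - 1 ≤ 2 := by
      have := Real.exp_one_lt_d9
      linarith
    have h6 : (0 : ℝ) ≤ mu π z (fun _ => none) u (some i) := hw.1 u _
    have h7 : (Real.exp 1 - 1) * mu π z (fun _ => none) u (some i) ≤ 2 * (1 / (2 * k)) := by
      calc _ ≤ 2 * mu π z (fun _ => none) u (some i) := mul_le_mul_of_nonneg_right h5 h6
        _ ≤ _ := by linarith
    have h8 : 2 * (1 / (2 * (k : ℝ))) = 1 / k := by
      field_simp
    have h9 := Real.add_one_le_exp (1 / (k : ℝ))
    linarith
  have h10 : ∀ u : V, (0 : ℝ) ≤ ∑ l, (if l = some i then Real.exp 1 else 1) *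
      mu π z (fun _ => none) u l := by
    intro u
    apply sum_nonneg
    intro x _
    apply mul_nonneg
    · split_ifs
      · exact (Real.exp_pos _).le
      · norm_num
    · exact (mu_isW hk π z (fun _ : V => none)).1 u x
  calc _ ≤ ∏ u : V, Real.exp (1 / k) := prod_le_prod (fun u _ => h10 u) fun u _ => h2 u
    _ = _ := by
      rw [prod_const, ← Real.exp_nat_mul, card_univ]
      congr 1
      ring

/-- indicator of a label which occurs more than `n` times -/
noncomputable def big (n : ℕ) (i : Fin k) (a : V → Option (Fin k)) : ℝ :=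
  if n < cnt univ (some i) a then 1 else 0

theorem big_nonneg (n : ℕ) (i : Fin k) (a : V → Option (Fin k)) : 0 ≤ big n i a := by
  unfold big
  split_ifs <;> norm_num

theorem M_big {π : Fin k × Fin k → Fin k} (hk : 0 < k) (z : V → Bool) (i : Fin k) (n : ℕ) :
    M (mu π z (fun _ => none)) (big n i) ≤ Real.exp ((Fintype.card V : ℝ) / k - n) := by
  have h1 : ∀ a : V → Option (Fin k), big n i a ≤
      Real.exp (-n) * Real.exp ((cnt univ (some i) a : ℕ) : ℝ) := by
    intro a
    unfold big
    split_ifs with h
    · rw [← Real.exp_add]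
      apply Real.one_le_exp
      have : (n : ℝ) < (cnt univ (some i) a : ℕ) := by exact_mod_cast h
      linarith
    · positivity
  have h2 := M_mono (mu_isW hk π z (fun _ : V => none)) h1
  rw [M_smul] at h2
  refine h2.trans ?_
  have h3 := mul_le_mul_of_nonneg_left (M_exp_cnt_le (π := π) hk z i) (Real.exp_pos (-(n : ℝ))).le
  refine h3.trans (le_of_eq ?_)
  rw [← Real.exp_add]
  congr 1
  ring

section size

variable (hk : 0 < k) (F G : (V → Option (Fin k)) → ℝ)
  (hF0 : ∀ a, 0 ≤ F a) (hF1 : ∀ a, F a ≤ 1) (hG0 : ∀ a, 0 ≤ G a) (hG1 : ∀ a, G a ≤ 1)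

/-- restriction to labellings in which the labels in the list occur at most `n` times -/
noncomputable def cutF (n : ℕ) (S : List (Fin k)) (F : (V → Option (Fin k)) → ℝ)
    (a : V → Option (Fin k)) : ℝ :=
  if ∀ i ∈ S, cnt univ (some i) a ≤ n then F a else 0

theorem cutF_nonneg (n : ℕ) (S : List (Fin k)) (F : (V → Option (Fin k)) → ℝ)
    (hF0 : ∀ a, 0 ≤ F a) (a : V → Option (Fin k)) : 0 ≤ cutF n S F a := by
  unfold cutF
  split_ifs
  · exact hF0 a
  · exact le_rfl

theorem cutF_le (n : ℕ) (S : List (Fin k)) (F : (V → Option (Fin k)) → ℝ)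
    (hF0 : ∀ a, 0 ≤ F a) (a : V → Option (Fin k)) : cutF n S F a ≤ F a := by
  unfold cutF
  split_ifs
  · exact le_rfl
  · exact hF0 a

include hk hF0 hF1 in
theorem M_cutF {π : Fin k × Fin k → Fin k} (z : V → Bool) (n : ℕ) (S : List (Fin k)) :
    M (mu π z (fun _ => none)) F ≤ M (mu π z (fun _ => none)) (cutF n S F) +
      S.length * Real.exp ((Fintype.card V : ℝ) / k - n) := by
  have h1 : ∀ a : V → Option (Fin k), F a ≤ cutF n S F a + (S.map fun i => big n i a).sum := by
    intro a
    unfold cutF
    have hnn : 0 ≤ (S.map fun i => big n i a).sum := by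
      apply List.sum_nonneg
      intro x hx
      obtain ⟨i, _, rfl⟩ := List.mem_map.1 hx
      exact big_nonneg n i a
    split_ifs with h
    · linarith
    · push Not at h
      obtain ⟨i, hi, hlt⟩ := h
      have h2 : big n i a ≤ (S.map fun i => big n i a).sum := by
        apply List.single_le_sum
        · intro x hx
          obtain ⟨i, _, rfl⟩ := List.mem_map.1 hx
          exact big_nonneg n i a
        · exact List.mem_map.2 ⟨i, hi, rfl⟩
      have h3 : big n i a = 1 := by
        unfold big
        rw [if_pos hlt]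
      have := hF1 a
      linarith
  have h2 := M_mono (mu_isW hk π z (fun _ : V => none)) h1
  rw [M_add] at h2
  refine h2.trans ?_
  have h3 : ∀ S : List (Fin k), M (mu π z (fun _ : V => none)) (fun a => (S.map fun i => big n i a).sum) ≤
      S.length * Real.exp ((Fintype.card V : ℝ) / k - n) := by
    intro S
    induction S with
    | nil => simp [M]
    | cons i S ih =>
      simp only [List.map_cons, List.sum_cons]
      rw [M_add]
      have := M_big (π := π) hk z i n
      push_cast [List.length_cons]
      have h5 : M (mu π z (fun _ : V => none)) (fun a => big n i a) =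
        M (mu π z (fun _ : V => none)) (big n i) := rfl
      rw [h5]
      linarith
  linarith [h3 S]

include hk hF0 hF1 hG0 hG1 in
theorem W_cut (n : ℕ) (S T : List (Fin k)) :
    W F G ≤ W (cutF n S F) (cutF n T G) +
      (S.length + T.length) * Real.exp ((Fintype.card V : ℝ) / k - n) * 2 ^ Fintype.card V := by
  unfold W Psi
  have h1 : ∀ z : V → Bool, M (mu Prod.fst z (fun _ => none)) F *
      M (mu Prod.snd (fun u => !z u) (fun _ => none)) G ≤
      M (mu Prod.fst z (fun _ => none)) (cutF n S F) *
      M (mu Prod.snd (fun u => !z u) (fun _ => none)) (cutF n T G) +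
        (S.length + T.length) * Real.exp ((Fintype.card V : ℝ) / k - n) := by
    intro z
    have hw1 := mu_isW hk Prod.fst z (fun _ : V => none)
    have hw2 := mu_isW hk Prod.snd (fun u => !z u) (fun _ : V => none)
    have a1 := M_cutF (π := Prod.fst) hk F hF0 hF1 z n S
    have a2 := M_cutF (π := Prod.snd) hk G hG0 hG1 (fun u => !z u) n T
    have b1 := M_nonneg hw1 hF0
    have b2 := M_nonneg hw2 hG0
    have b3 := M_le_one hw1 hF1
    have b4 := M_le_one hw2 hG1
    have c1 := M_nonneg hw1 (cutF_nonneg n S F hF0)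
    have c2 := M_nonneg hw2 (cutF_nonneg n T G hG0)
    have c3 := M_mono hw1 (cutF_le n S F hF0)
    have hE := Real.exp_pos ((Fintype.card V : ℝ) / k - n)
    set A := M (mu Prod.fst z (fun _ : V => none)) F
    set B := M (mu Prod.snd (fun u => !z u) (fun _ : V => none)) G
    set A' := M (mu Prod.fst z (fun _ : V => none)) (cutF n S F)
    set B' := M (mu Prod.snd (fun u => !z u) (fun _ : V => none)) (cutF n T G)
    set E := Real.exp ((Fintype.card V : ℝ) / k - n)
    have hS : (0 : ℝ) ≤ S.length * E := by positivity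
    have hT : (0 : ℝ) ≤ T.length * E := by positivity
    calc A * B ≤ (A' + S.length * E) * B := mul_le_mul_of_nonneg_right a1 b2
      _ = A' * B + S.length * E * B := by ring
      _ ≤ A' * (B' + T.length * E) + S.length * E * 1 := by
          apply add_le_add
          · exact mul_le_mul_of_nonneg_left a2 c1
          · exact mul_le_mul_of_nonneg_left b4 hS
      _ = A' * B' + A' * (T.length * E) + S.length * E := by ring
      _ ≤ A' * B' + 1 * (T.length * E) + S.length * E := by
          have : A' ≤ 1 := c3.trans b3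
          have := mul_le_mul_of_nonneg_right this hT
          linarith
      _ = _ := by ring
  refine (sum_le_sum fun z _ => h1 z).trans ?_
  rw [sum_add_distrib, sum_const, card_univ, Fintype.card_fun, Fintype.card_bool, nsmul_eq_mul]
  push_cast
  linarith

include hk hF0 hF1 hG0 hG1 in
/-- **Hitting lemma with sizes.** -/
theorem hitSize (l : List (Fin k × Fin k)) (n : ℕ) (τ δ : ℝ) (hτ : 0 ≤ τ)
    (hV : 1056 * k * τ + l.length ≤ Fintype.card V)
    (hδ : 640 * Real.exp (-τ) * 4096 ^ l.length ≤ δ)
    (hn : 4 * l.length * Real.exp ((Fintype.card V : ℝ) / k - n) ≤ δ)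
    (hW : δ * 2 ^ Fintype.card V ≤ W F G) :
    ∃ a b : V → Option (Fin k), 0 < F a ∧ 0 < G b ∧
      (∀ i j, (i, j) ∈ l ↔ ∃ u, a u = some i ∧ b u = some j) ∧
      ∀ d ∈ l, cnt univ (some d.1) a ≤ n ∧ cnt univ (some d.2) b ≤ n := by
  have h1 := W_cut hk F G hF0 hF1 hG0 hG1 n (l.map Prod.fst) (l.map Prod.snd)
  rw [List.length_map, List.length_map] at h1
  have h2p : (0 : ℝ) < 2 ^ Fintype.card V := by positivity
  have h2 : (l.length + l.length) * Real.exp ((Fintype.card V : ℝ) / k - n) ≤ δ / 2 := by
    linarith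
  have h3 : (l.length + l.length) * Real.exp ((Fintype.card V : ℝ) / k - n) * 2 ^ Fintype.card V ≤
      δ / 2 * 2 ^ Fintype.card V := mul_le_mul_of_nonneg_right h2 h2p.le
  obtain ⟨a, b, ha, hb, hab⟩ := hit hk (cutF n (l.map Prod.fst) F) (cutF n (l.map Prod.snd) G)
    (cutF_nonneg _ _ F hF0) (fun a => (cutF_le _ _ F hF0 a).trans (hF1 a))
    (cutF_nonneg _ _ G hG0) (fun a => (cutF_le _ _ G hG0 a).trans (hG1 a)) l τ (δ / 2) hτ hV
    (by linarith) (by linarith)
  have g1 : (∀ i ∈ l.map Prod.fst, cnt univ (some i) a ≤ n) ∧ 0 < F a := by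
    unfold cutF at ha
    split_ifs at ha with h
    · exact ⟨h, ha⟩
    · exact absurd ha (lt_irrefl 0)
  have g2 : (∀ i ∈ l.map Prod.snd, cnt univ (some i) b ≤ n) ∧ 0 < G b := by
    unfold cutF at hb
    split_ifs at hb with h
    · exact ⟨h, hb⟩
    · exact absurd hb (lt_irrefl 0)
  exact ⟨a, b, g1.2, g2.2, hab, fun d hd =>
    ⟨g1.1 _ (List.mem_map.2 ⟨d, hd, rfl⟩), g2.1 _ (List.mem_map.2 ⟨d, hd, rfl⟩)⟩⟩

end size

end Pool.Agent.T2H60.HL
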