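import Mathlib

set_option autoImplicit false

/-!
# Set intersection: one probe to a joint memory, whose address depends on both halves
-/

namespace Pool.Agent.T2H60.HL.JD

/-- A deterministic communication protocol between a player who knows `a : A` and a player who knows
`b : B`: at every node one of the two players sends one bit, which is an arbitrary function of
his input; the leaves carry results in `R`. -/
inductive Prot (A B R : Type) : Type
  | out (r : R) : Prot A B R
  | left (f : A → Bool) (p q : Prot A B R) : Prot A B R
  | right (g : B → Bool) (p q : Prot A B R) : Prot A B R

/-- the result on the inputs `a`, `b` -/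
def Prot.run {A B R : Type} : Prot A B R → A → B → R
  | Prot.out r, _, _ => r
  | Prot.left f p q, a, b => if f a then p.run a b else q.run a b
  | Prot.right g p q, a, b => if g b then p.run a b else q.run a b

/-- the maximal number of bits sent -/
def Prot.depth {A B R : Type} : Prot A B R → ℕ
  | Prot.out _ => 0
  | Prot.left _ p q => max p.depth q.depth + 1
  | Prot.right _ p q => max p.depth q.depth + 1

/-- a half of the family: `k` sets -/
abbrev Half (k : ℕ) : Type := Fin k → Finset ℕ

/-- A data structure for families of `2 k` sets (two halves of `k` sets) with a joint memory of `s`
cells of `w` bits which depend arbitrarily on the whole family. The query algorithm for a pair `d` is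
a communication protocol between the halves; it determines the address of the joint cell which is
read and, for each content of this cell, a further protocol which gives the answer. -/
structure JointDS (k s w : ℕ) where
  /-- the contents of the joint memory -/
  joint : Half k → Half k → Fin s → Fin (2 ^ w)
  /-- the query algorithms -/
  query : Fin k × Fin k →
    Prot (Half k) (Half k) (Fin s × (Fin (2 ^ w) → Prot (Half k) (Half k) Bool))

/-- the answer to the query `d` for the family with the halves `X` and `Y` -/
def JointDS.answer {k s w : ℕ} (D : JointDS k s w) (d : Fin k × Fin k) (X Y : Half k) : Bool :=
  (((D.query d).run X Y).2 (D.joint X Y ((D.query d).run X Y).1)).run X Y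

/-- every protocol sends at most `b` bits, before and after the joint cell is read -/
def JointDS.Bits {k s w : ℕ} (D : JointDS k s w) (b : ℕ) : Prop :=
  ∀ d, (D.query d).depth ≤ b ∧ ∀ X Y v, (((D.query d).run X Y).2 v).depth ≤ b

/-- all sets of the half are `n`-element subsets of `{0, …, u - 1}` -/
def IsHalf {k : ℕ} (n u : ℕ) (X : Half k) : Prop := ∀ i, (X i).card = n ∧ X i ⊆ Finset.range u

/-- for all families of `n`-element subsets of `{0, …, u - 1}` all queries are answered correctly: the
answer is yes if and only if the set number `d.1` of the first half and the set number `d.2` of the
second half have a common element -/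
def JointDS.Solves {k s w : ℕ} (D : JointDS k s w) (n u : ℕ) : Prop :=
  ∀ X Y : Half k, IsHalf n u X → IsHalf n u Y → ∀ d,
    (D.answer d X Y = true ↔ (X d.1 ∩ Y d.2).Nonempty)

end Pool.Agent.T2H60.HL.JD
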