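import Pool.Agent.T2H60.HL.Tab
import Pool.Agent.T2H60.HL.JointDefs

set_option autoImplicit false
set_option linter.unusedSectionVars false

/-!
# One joint probe: lower bound
-/

namespace Pool.Agent.T2H60.HL.JD

open Finset

variable {k : ℕ}

/-- A protocol of depth `b` is constant on `2 ^ b` rectangles which cover everything. -/
theorem leaves {A B R : Type} : ∀ (p : Prot A B R) (b : ℕ), p.depth ≤ b →
    ∃ (F : Fin (2 ^ b) → A → Prop) (G : Fin (2 ^ b) → B → Prop) (r : Fin (2 ^ b) → R),
      (∀ x y, ∃ l, F l x ∧ G l y) ∧ ∀ l x y, F l x → G l y → p.run x y = r l := by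
  intro p
  induction p with
  | out r =>
    intro b _
    refine ⟨fun _ _ => True, fun _ _ => True, fun _ => r, ?_, ?_⟩
    · intro x y
      exact ⟨⟨0, by positivity⟩, trivial, trivial⟩
    · intro l x y _ _
      rfl
  | left f p q ihp ihq =>
    intro b hb
    obtain ⟨b, rfl⟩ : ∃ b', b = b' + 1 := ⟨b - 1, by unfold Prot.depth at hb; omega⟩
    unfold Prot.depth at hb
    obtain ⟨F1, G1, r1, h1, h1'⟩ := ihp b (by omega)
    obtain ⟨F2, G2, r2, h2, h2'⟩ := ihq b (by omega)
    have e : Fin (2 ^ (b + 1)) ≃ Fin (2 ^ b) ⊕ Fin (2 ^ b) :=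
      (finCongr (by ring)).trans finSumFinEquiv.symm
    refine ⟨fun l x => Sum.elim (fun i => f x = true ∧ F1 i x) (fun i => f x = false ∧ F2 i x) (e l),
      fun l y => Sum.elim (fun i => G1 i y) (fun i => G2 i y) (e l),
      fun l => Sum.elim r1 r2 (e l), ?_, ?_⟩
    · intro x y
      rcases hf : f x with _ | _
      · obtain ⟨l, hl⟩ := h2 x y
        refine ⟨e.symm (Sum.inr l), ?_⟩
        simp only [Equiv.apply_symm_apply, Sum.elim_inr]
        exact ⟨⟨hf, hl.1⟩, hl.2⟩
      · obtain ⟨l, hl⟩ := h1 x y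
        refine ⟨e.symm (Sum.inl l), ?_⟩
        simp only [Equiv.apply_symm_apply, Sum.elim_inl]
        exact ⟨⟨hf, hl.1⟩, hl.2⟩
    · intro l x y hx hy
      unfold Prot.run
      rcases hl : e l with i | i
      · simp only [hl, Sum.elim_inl] at hx hy ⊢
        rw [if_pos hx.1]
        exact h1' i x y hx.2 hy
      · simp only [hl, Sum.elim_inr] at hx hy ⊢
        rw [if_neg (by rw [hx.1]; simp)]
        exact h2' i x y hx.2 hy
  | right g p q ihp ihq =>
    intro b hb
    obtain ⟨b, rfl⟩ : ∃ b', b = b' + 1 := ⟨b - 1, by unfold Prot.depth at hb; omega⟩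
    unfold Prot.depth at hb
    obtain ⟨F1, G1, r1, h1, h1'⟩ := ihp b (by omega)
    obtain ⟨F2, G2, r2, h2, h2'⟩ := ihq b (by omega)
    have e : Fin (2 ^ (b + 1)) ≃ Fin (2 ^ b) ⊕ Fin (2 ^ b) :=
      (finCongr (by ring)).trans finSumFinEquiv.symm
    refine ⟨fun l x => Sum.elim (fun i => F1 i x) (fun i => F2 i x) (e l),
      fun l y => Sum.elim (fun i => g y = true ∧ G1 i y) (fun i => g y = false ∧ G2 i y) (e l),
      fun l => Sum.elim r1 r2 (e l), ?_, ?_⟩
    · intro x y
      rcases hf : g y with _ | _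
      · obtain ⟨l, hl⟩ := h2 x y
        refine ⟨e.symm (Sum.inr l), ?_⟩
        simp only [Equiv.apply_symm_apply, Sum.elim_inr]
        exact ⟨hl.1, ⟨hf, hl.2⟩⟩
      · obtain ⟨l, hl⟩ := h1 x y
        refine ⟨e.symm (Sum.inl l), ?_⟩
        simp only [Equiv.apply_symm_apply, Sum.elim_inl]
        exact ⟨hl.1, ⟨hf, hl.2⟩⟩
    · intro l x y hx hy
      unfold Prot.run
      rcases hl : e l with i | i
      · simp only [hl, Sum.elim_inl] at hx hy ⊢
        rw [if_pos hy.1]
        exact h1' i x y hx hy.2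
      · simp only [hl, Sum.elim_inr] at hx hy ⊢
        rw [if_neg (by rw [hy.1]; simp)]
        exact h2' i x y hx hy.2

/-- the weight of a rectangle is a sum over pairs without common labels -/
theorem W_sum {v : ℕ} (hk : 0 < k) : ∃ ω : (Fin v → Option (Fin k)) → (Fin v → Option (Fin k)) → ℝ,
    (∀ a b, 0 ≤ ω a b) ∧ (∀ a b, ω a b ≠ 0 → AllDisj a b) ∧
    ∀ F G : (Fin v → Option (Fin k)) → ℝ, W F G = ∑ a, ∑ b, ω a b * (F a * G b) := by
  refine ⟨fun a b => ∑ z : Fin v → Bool, (∏ u, mu Prod.fst z (fun _ => none) u (a u)) *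
    ∏ u, mu Prod.snd (fun u => !z u) (fun _ => none) u (b u), ?_, ?_, ?_⟩
  · intro a b
    apply sum_nonneg
    intro z _
    exact mul_nonneg (prod_nonneg' (mu_isW hk _ _ _) a) (prod_nonneg' (mu_isW hk _ _ _) b)
  · intro a b h
    obtain ⟨z, _, hz⟩ := exists_ne_zero_of_sum_ne_zero h
    intro u
    by_contra hcon
    push Not at hcon
    apply hz
    rcases hzu : z u with _ | _
    · have h0 : mu Prod.fst z (fun _ => none) u (a u) = 0 := by
        unfold mu
        simp only [hzu]
        rw [if_neg (by simp)]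
        exact Pi.single_eq_of_ne hcon.1 1
      rw [prod_eq_zero (mem_univ u) h0, zero_mul]
    · have h0 : mu Prod.snd (fun u => !z u) (fun _ => none) u (b u) = 0 := by
        unfold mu
        simp only [hzu]
        rw [if_neg (by simp)]
        exact Pi.single_eq_of_ne hcon.2 1
      have h3 : ∏ u, mu Prod.snd (fun u => !z u) (fun _ => none) u (b u) = 0 :=
        prod_eq_zero (mem_univ u) h0
      rw [h3, mul_zero]
  · intro F G
    have h1 : W F G = ∑ z : Fin v → Bool, ∑ a, ∑ b,
        (F a * ∏ u, mu Prod.fst z (fun _ => none) u (a u)) *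
        (G b * ∏ u, mu Prod.snd (fun u => !z u) (fun _ => none) u (b u)) := by
      unfold W Psi M
      apply sum_congr rfl
      intro z _
      rw [sum_mul_sum]
    rw [h1, sum_comm]
    apply sum_congr rfl
    intro a _
    rw [sum_comm]
    apply sum_congr rfl
    intro b _
    rw [sum_mul]
    apply sum_congr rfl
    intro z _
    ring

/-- Cover lemma: if the pairs without common labels in a rectangle are covered by rectangles, then one
of these is not too small. -/
theorem cover {v : ℕ} {ι : Type} [Fintype ι] [Nonempty ι] (hk : 0 < k)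
    (F G : (Fin v → Option (Fin k)) → ℝ) (hF : Ok F) (hG : Ok G)
    (P Q : ι → (Fin v → Option (Fin k)) → Prop)
    (h : ∀ a b, 0 < F a → 0 < G b → AllDisj a b → ∃ i, P i a ∧ Q i b) :
    ∃ i, W F G / Fintype.card ι ≤ W (res (P i) F) (res (Q i) G) := by
  classical
  obtain ⟨ω, h0, h1, h2⟩ := W_sum (k := k) (v := v) hk
  by_contra hcon
  push Not at hcon
  have h3 : ∑ i, W (res (P i) F) (res (Q i) G) < ∑ _i : ι, W F G / Fintype.card ι :=
    sum_lt_sum_of_nonempty univ_nonempty fun i _ => hcon i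
  have hc : (0 : ℝ) < Fintype.card ι := by
    exact_mod_cast Fintype.card_pos
  rw [sum_const, card_univ, nsmul_eq_mul, mul_div_cancel₀ _ hc.ne'] at h3
  refine absurd h3 (not_lt.2 ?_)
  have h5 : ∑ i, W (res (P i) F) (res (Q i) G) =
      ∑ a, ∑ b, ∑ i, ω a b * (res (P i) F a * res (Q i) G b) := by
    simp only [h2]
    rw [sum_comm]
    apply sum_congr rfl
    intro a _
    rw [sum_comm]
  rw [h5, h2]
  apply sum_le_sum
  intro a _
  apply sum_le_sum
  intro b _
  rw [← mul_sum]
  by_cases hw : ω a b = 0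
  · rw [hw, zero_mul, zero_mul]
  · apply mul_le_mul_of_nonneg_left _ (h0 a b)
    by_cases hFa : 0 < F a
    · by_cases hGb : 0 < G b
      · obtain ⟨i, hi⟩ := h a b hFa hGb (h1 a b hw)
        have h4 : F a * G b = res (P i) F a * res (Q i) G b := by
          unfold res
          rw [if_pos hi.1, if_pos hi.2]
        rw [h4]
        exact single_le_sum (f := fun i => res (P i) F a * res (Q i) G b)
          (fun i _ => mul_nonneg ((hF.res _).1 a) ((hG.res _).1 b)) (mem_univ i)
      · have : G b = 0 := le_antisymm (not_lt.1 hGb) (hG.1 b)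
        rw [this, mul_zero]
        exact sum_nonneg fun i _ => mul_nonneg ((hF.res _).1 a) ((hG.res _).1 b)
    · have : F a = 0 := le_antisymm (not_lt.1 hFa) (hF.1 a)
      rw [this, zero_mul]
      exact sum_nonneg fun i _ => mul_nonneg ((hF.res _).1 a) ((hG.res _).1 b)

end Pool.Agent.T2H60.HL.JD
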