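import Pool.Agent.T2H60.HL.Joint

set_option autoImplicit false
set_option linter.unusedSectionVars false

/-!
# One joint probe: main theorem
-/

namespace Pool.Agent.T2H60.HL.JD

open Finset

/-- numerical fact -/
theorem card_bound (k q b w ℓ m0 : ℕ) (hk : k ≤ 2 ^ ℓ)
    (hm0 : m0 = q * (b * (2 ^ w + 1) + 2 * ℓ + 1)) :
    (k * k) ^ q * (2 ^ b) ^ q * (2 ^ b) ^ (2 ^ w * q) ≤ (2 ^ m0) ^ (2 * 1) := by
  calc (k * k) ^ q * (2 ^ b) ^ q * (2 ^ b) ^ (2 ^ w * q)
      ≤ (2 ^ ℓ * 2 ^ ℓ) ^ q * (2 ^ b) ^ q * (2 ^ b) ^ (2 ^ w * q) := by gcongr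
    _ = 2 ^ ((ℓ + ℓ) * q + b * q + b * (2 ^ w * q)) := by
        rw [← pow_add, ← pow_mul, ← pow_mul, ← pow_mul, ← pow_add, ← pow_add]
    _ ≤ 2 ^ (m0 * (2 * 1)) := by
        apply Nat.pow_le_pow_right (by norm_num)
        rw [hm0]
        nlinarith [Nat.zero_le (q * (b * (2 ^ w + 1) + 2 * ℓ + 1)), Nat.zero_le q]
    _ = (2 ^ m0) ^ (2 * 1) := by rw [pow_mul]

/-- an injection into a large finite set -/
theorem exists_inj {α : Type} (S : Finset α) (q : ℕ) (h : q ≤ S.card) :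
    ∃ e : Fin q → α, Function.Injective e ∧ ∀ r, e r ∈ S := by
  refine ⟨fun r => (S.equivFin.symm (Fin.castLE h r) : S), ?_, fun r => Subtype.prop _⟩
  intro r r' hr
  have h1 := Subtype.ext hr
  exact Fin.castLE_injective h (S.equivFin.symm.injective h1)

/-- **One joint probe at an arbitrary address.** -/
theorem oneProbe (k s w b ℓ n u : ℕ) (hkl : k ≤ 2 ^ ℓ)
    (hn : 20000 * ((w + 1) * (b * (2 ^ w + 1) + 2 * ℓ + 1)) ≤ n) (hu : 3 * k * n ≤ u)
    (D : JointDS k s w) (hb : D.Bits b) (hD : D.Solves n u) : k ^ 2 ≤ w * s := by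
  classical
  by_contra hcon
  push Not at hcon
  have hk : 0 < k := by
    have h2 : 0 < k ^ 2 := lt_of_le_of_lt (Nat.zero_le _) hcon
    exact Nat.pos_of_ne_zero fun h => by
      have h3 : k ^ 2 = 0 := by rw [pow_eq_zero_iff (by norm_num)]; exact h
      omega
  obtain ⟨q, hq⟩ : ∃ q, q = w + 1 := ⟨_, rfl⟩
  obtain ⟨m0, hm0⟩ : ∃ m0, m0 = q * (b * (2 ^ w + 1) + 2 * ℓ + 1) := ⟨_, rfl⟩
  obtain ⟨v, hv⟩ : ∃ v, v = 19009 * k * m0 := ⟨_, rfl⟩
  rw [← hq, ← hm0] at hn
  have hqm : q ≤ m0 := by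
    rw [hm0]
    exact Nat.le_mul_of_pos_right _ (by omega)
  have hvu : v + 2 * (k * n) ≤ u := by
    have h1 : v ≤ k * n := by
      rw [hv]
      calc 19009 * k * m0 ≤ 20000 * k * m0 := by
            apply Nat.mul_le_mul_right
            omega
        _ = k * (20000 * m0) := by ring
        _ ≤ k * n := Nat.mul_le_mul_left _ hn
    calc v + 2 * (k * n) ≤ k * n + 2 * (k * n) := by omega
      _ = 3 * k * n := by ring
      _ ≤ u := hu
  obtain ⟨X, hXd⟩ : ∃ X : (Fin v → Option (Fin k)) → Half k, X = fun a => fam n v a := ⟨_, rfl⟩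
  obtain ⟨Y, hYd⟩ : ∃ Y : (Fin v → Option (Fin k)) → Half k, Y = fun a => fam n (v + k * n) a :=
    ⟨_, rfl⟩
  have hX : ∀ a, IsHalf n u (X a) := by
    intro a i
    rw [hXd]
    refine ⟨card_fam n v v le_rfl a i, fun x hx => mem_range.2 ?_⟩
    exact fam_lt (by omega) (by omega) hx
  have hY : ∀ a, IsHalf n u (Y a) := by
    intro a i
    rw [hYd]
    refine ⟨card_fam n v _ (by omega) a i, fun x hx => mem_range.2 ?_⟩
    exact fam_lt (by omega) (by omega) hx
  -- the leaves of the first protocols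
  choose F1 G1 r1 hc1 hr1 using fun d => leaves (D.query d) b (hb d).1
  have : Nonempty (Fin k × Fin k) := ⟨(⟨0, hk⟩, ⟨0, hk⟩)⟩
  have : Nonempty (Fin (2 ^ b)) := ⟨⟨0, by positivity⟩⟩
  have hok : Ok (fun _ : Fin v → Option (Fin k) => (1 : ℝ)) :=
    ⟨fun _ => by norm_num, fun _ => le_rfl⟩
  obtain ⟨⟨e, l⟩, hW1⟩ := cover (v := v) (ι := (Fin q → Fin k × Fin k) × (Fin q → Fin (2 ^ b)))
    hk (fun _ => 1) (fun _ => 1) hok hok
    (fun i a => (Function.Injective i.1 ∧ ∀ r r', (r1 (i.1 r) (i.2 r)).1 = (r1 (i.1 r') (i.2 r')).1) ∧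
      ∀ r, F1 (i.1 r) (i.2 r) (X a))
    (fun i b => ∀ r, G1 (i.1 r) (i.2 r) (Y b)) (by
      intro a b' _ _ _
      obtain ⟨c, _, hc⟩ := exists_lt_card_fiber_of_mul_lt_card_of_maps_to
        (s := (univ : Finset (Fin k × Fin k))) (t := (univ : Finset (Fin s))) (n := w)
        (f := fun d => ((D.query d).run (X a) (Y b')).1) (fun _ _ => mem_univ _) (by
          rw [card_univ, card_univ, Fintype.card_fin, Fintype.card_prod, Fintype.card_fin]
          calc s * w = w * s := by ring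
            _ < k ^ 2 := hcon
            _ = k * k := by ring)
      obtain ⟨e, he, he2⟩ := exists_inj _ q (by rw [hq]; exact hc)
      choose l hl using fun r : Fin q => hc1 (e r) (X a) (Y b')
      refine ⟨(e, l), ⟨⟨he, ?_⟩, fun r => (hl r).1⟩, fun r => (hl r).2⟩
      have h1 : ∀ r, (r1 (e r) (l r)).1 = c := by
        intro r
        rw [← hr1 (e r) (l r) (X a) (Y b') (hl r).1 (hl r).2]
        have := he2 r
        simp only [mem_filter, mem_univ, true_and] at this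
        exact this
      intro r r'
      rw [h1 r, h1 r'])
  simp only at hW1
  set P1 : (Fin v → Option (Fin k)) → Prop := fun a =>
    (Function.Injective e ∧ ∀ r r', (r1 (e r) (l r)).1 = (r1 (e r') (l r')).1) ∧
      ∀ r, F1 (e r) (l r) (X a) with hP1
  set Q1 : (Fin v → Option (Fin k)) → Prop := fun b => ∀ r, G1 (e r) (l r) (Y b) with hQ1
  have hok1 := hok.res P1
  have hok1' := hok.res Q1
  rw [W_one hk] at hW1
  have h2v : (0 : ℝ) < 2 ^ v := by positivity
  have hci : (0 : ℝ) < Fintype.card ((Fin q → Fin k × Fin k) × (Fin q → Fin (2 ^ b))) := by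
    exact_mod_cast Fintype.card_pos
  have hW1pos : 0 < W (res P1 (fun _ => 1)) (res Q1 (fun _ => 1)) :=
    lt_of_lt_of_le (by positivity) hW1
  obtain ⟨a1, b1, ha1, hb1, _⟩ := exists_allDisj _ _ hok1.1 hok1'.1 hW1pos
  obtain ⟨_, ⟨he, haddr⟩, ha1'⟩ := res_pos ha1
  obtain ⟨_, hb1'⟩ := res_pos hb1
  have hq0 : 0 < q := by omega
  obtain ⟨c, hc⟩ : ∃ c, ∀ r, (r1 (e r) (l r)).1 = c := ⟨_, fun r => haddr r ⟨0, hq0⟩⟩
  -- the leaves of the second protocols
  have hdep : ∀ x : Fin (2 ^ w) × Fin q, ((r1 (e x.2) (l x.2)).2 x.1).depth ≤ b := by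
    intro x
    have h1 := (hb (e x.2)).2 (X a1) (Y b1) x.1
    rw [hr1 (e x.2) (l x.2) (X a1) (Y b1) (ha1' x.2) (hb1' x.2)] at h1
    exact h1
  choose F2 G2 r2 hc2 hr2 using fun x : Fin (2 ^ w) × Fin q => leaves _ b (hdep x)
  obtain ⟨j, hW2⟩ := cover (v := v) (ι := Fin (2 ^ w) × Fin q → Fin (2 ^ b))
    hk (res P1 (fun _ => 1)) (res Q1 (fun _ => 1)) hok1 hok1'
    (fun i a => ∀ x, F2 x (i x) (X a)) (fun i b => ∀ x, G2 x (i x) (Y b)) (by
      intro a b' _ _ _
      choose i hi using fun x => hc2 x (X a) (Y b')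
      exact ⟨i, fun x => (hi x).1, fun x => (hi x).2⟩)
  set F := res (fun a => ∀ x, F2 x (j x) (X a)) (res P1 (fun _ => 1)) with hF
  set G := res (fun b => ∀ x, G2 x (j x) (Y b)) (res Q1 (fun _ => 1)) with hG
  have hokF : Ok F := hok1.res _
  have hokG : Ok G := hok1'.res _
  have hWF : 1 / ((2 : ℝ) ^ m0) ^ (2 * 1) * 2 ^ v ≤ W F G := by
    refine le_trans ?_ hW2
    have h1 : (2 : ℝ) ^ v / (Fintype.card ((Fin q → Fin k × Fin k) × (Fin q → Fin (2 ^ b))) : ℝ) /
        (Fintype.card (Fin (2 ^ w) × Fin q → Fin (2 ^ b)) : ℝ) ≤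
        W (res P1 (fun _ => 1)) (res Q1 (fun _ => 1)) /
          (Fintype.card (Fin (2 ^ w) × Fin q → Fin (2 ^ b)) : ℝ) :=
      div_le_div_of_nonneg_right hW1 (by positivity)
    refine le_trans ?_ h1
    rw [div_div, one_div, inv_mul_eq_div]
    apply div_le_div_of_nonneg_left h2v.le
    · have h2 : (0 : ℝ) < (Fintype.card (Fin (2 ^ w) × Fin q → Fin (2 ^ b)) : ℝ) := by
        exact_mod_cast Fintype.card_pos
      positivity
    · have h2 := card_bound k q b w ℓ m0 hkl hm0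
      have h3 : Fintype.card ((Fin q → Fin k × Fin k) × (Fin q → Fin (2 ^ b))) *
          Fintype.card (Fin (2 ^ w) × Fin q → Fin (2 ^ b)) ≤ (2 ^ m0) ^ (2 * 1) := by
        simp only [Fintype.card_prod, Fintype.card_pi, prod_const, card_univ, Fintype.card_fin]
        exact h2
      exact_mod_cast h3
  -- every pattern occurs
  have hpat : ∀ L : Finset (Fin q), ∃ a b : Fin v → Option (Fin k), 0 < F a ∧ 0 < G b ∧
      ∀ r, ((X a (e r).1 ∩ Y b (e r).2).Nonempty ↔ r ∈ L) := by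
    intro L
    have hlen : (L.image e).toList.length ≤ m0 := by
      rw [length_toList, card_image_of_injective _ he]
      refine le_trans ?_ hqm
      refine le_trans (card_le_univ L) ?_
      rw [Fintype.card_fin]
    obtain ⟨n1, n2, n3⟩ := nums m0 m0 1 (L.image e).toList.length n v k hk (by omega) (by omega)
      hlen hn hv
    obtain ⟨a, b', ha, hb', hab, hsz⟩ := hitSize hk F G hokF.1 hokF.2 hokG.1 hokG.2
      (L.image e).toList n (18 * m0) (1 / ((2 : ℝ) ^ m0) ^ (2 * 1)) (by positivity)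
      (by rw [Fintype.card_fin]; exact n1) n2 (by rw [Fintype.card_fin]; exact n3)
      (by rw [Fintype.card_fin]; exact hWF)
    refine ⟨a, b', ha, hb', fun r => ?_⟩
    rw [hXd, hYd]
    have h1 : ((e r).1, (e r).2) ∈ (L.image e).toList ↔ r ∈ L := by
      rw [mem_toList, mem_image]
      constructor
      · rintro ⟨r', hr', h⟩
        exact (he h) ▸ hr'
      · intro h
        exact ⟨r, h, rfl⟩
    rw [← h1, hab]
    constructor
    · intro h
      by_contra hcon
      exact not_inter a b' (e r).1 (e r).2 hcon h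
    · intro h
      have h2 := (hab _ _).2 h
      exact inter_of a b' _ _ h (hsz _ h2).1 (hsz _ h2).2
  choose A B hA hB hAB using hpat
  obtain ⟨L, L', hne, hLL⟩ := Fintype.exists_ne_map_eq_of_card_lt
    (fun L : Finset (Fin q) => D.joint (X (A L)) (Y (B L)) c) (by
      rw [Fintype.card_finset, Fintype.card_fin, Fintype.card_fin, hq]
      exact Nat.pow_lt_pow_right (by norm_num) (by omega))
  have hans : ∀ (L : Finset (Fin q)) (r : Fin q),
      D.answer (e r) (X (A L)) (Y (B L)) = r2 (D.joint (X (A L)) (Y (B L)) c, r)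
        (j (D.joint (X (A L)) (Y (B L)) c, r)) := by
    intro L r
    obtain ⟨ha2, ha3⟩ := res_pos (hA L)
    obtain ⟨hb2, hb3⟩ := res_pos (hB L)
    obtain ⟨_, _, ha4⟩ := res_pos ha2
    obtain ⟨_, hb4⟩ := res_pos hb2
    unfold JointDS.answer
    rw [hr1 (e r) (l r) _ _ (ha4 r) (hb4 r), hc r]
    exact hr2 (D.joint (X (A L)) (Y (B L)) c, r) _ _ _ (ha3 _) (hb3 _)
  apply hne
  ext r
  rw [← hAB L r, ← hAB L' r, ← hD _ _ (hX _) (hY _) (e r), ← hD _ _ (hX _) (hY _) (e r),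
    hans L r, hans L' r]
  rw [hLL]

end Pool.Agent.T2H60.HL.JD
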