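import Pool.Agent.T2H60.HL.Basic

set_option autoImplicit false
set_option linter.unusedSectionVars false

/-!
# Planting one intersection
-/

namespace Pool.Agent.T2H60.HL

open Finset

variable {V : Type} [Fintype V] [DecidableEq V] {k : ℕ}

/-- the weights of the labels at a position which belongs to the side -/
noncomputable def w1 (k : ℕ) : Option (Fin k) → ℝ
  | none => 1 / 2
  | some _ => 1 / (2 * k)

/-- the weights of the labels: `e u = some d` means that the label of `u` is `π d` -/
noncomputable def mu (π : Fin k × Fin k → Fin k) (z : V → Bool) (e : V → Option (Fin k × Fin k))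
    (u : V) : Option (Fin k) → ℝ :=
  match e u with
  | some d => Pi.single (some (π d)) 1
  | none => if z u = true then w1 k else Pi.single none 1

theorem mu_isW (hk : 0 < k) (π : Fin k × Fin k → Fin k) (z : V → Bool)
    (e : V → Option (Fin k × Fin k)) : IsW (mu π z e) := by
  have hs : ∀ x : Option (Fin k), (∀ l, (0 : ℝ) ≤ (Pi.single x 1 : Option (Fin k) → ℝ) l) ∧
      ∑ l, (Pi.single x 1 : Option (Fin k) → ℝ) l = 1 := by
    intro x
    refine ⟨fun l => ?_, ?_⟩
    · rw [Pi.single_apply]
      split_ifs <;> norm_num
    · rw [Finset.sum_pi_single' x (1 : ℝ) univ]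
      simp
  have hw : (∀ l, (0 : ℝ) ≤ w1 k l) ∧ ∑ l, w1 k l = 1 := by
    refine ⟨fun l => ?_, ?_⟩
    · cases l <;> unfold w1 <;> positivity
    · rw [Fintype.sum_option]
      have : (k : ℝ) ≠ 0 := by exact_mod_cast hk.ne'
      simp only [w1, sum_const, card_univ, Fintype.card_fin, nsmul_eq_mul]
      field_simp
      norm_num
  refine ⟨fun u l => ?_, fun u => ?_⟩
  · unfold mu
    cases e u with
    | some d => exact (hs _).1 l
    | none =>
      simp only
      split_ifs
      · exact hw.1 l
      · exact (hs _).1 l
  · unfold mu
    cases e u with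
    | some d => exact (hs _).2
    | none =>
      simp only
      split_ifs
      · exact hw.2
      · exact (hs _).2

theorem mu_none (π : Fin k × Fin k → Fin k) (z : V → Bool) (e : V → Option (Fin k × Fin k))
    (u : V) (hu : e u = none) :
    Function.update (mu π z e) u (Pi.single none 1) = mu π (Function.update z u false) e := by
  funext v
  by_cases hv : v = u
  · subst hv
    rw [Function.update_self]
    unfold mu
    rw [hu]
    simp
  · rw [Function.update_of_ne hv]
    unfold mu
    rw [Function.update_of_ne hv]

theorem mu_some (π : Fin k × Fin k → Fin k) (z : V → Bool) (e : V → Option (Fin k × Fin k))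
    (u : V) (d : Fin k × Fin k) :
    Function.update (mu π z e) u (Pi.single (some (π d)) 1) =
      mu π z (Function.update e u (some d)) := by
  funext v
  by_cases hv : v = u
  · subst hv
    rw [Function.update_self]
    unfold mu
    rw [Function.update_self]
  · rw [Function.update_of_ne hv]
    unfold mu
    rw [Function.update_of_ne hv]

theorem mu_upd (π : Fin k × Fin k → Fin k) (z : V → Bool) (e : V → Option (Fin k × Fin k))
    (u : V) (d : Fin k × Fin k) (b : Bool) :
    mu π (Function.update z u b) (Function.update e u (some d)) =
      mu π z (Function.update e u (some d)) := by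
  funext v
  by_cases hv : v = u
  · subst hv
    unfold mu
    rw [Function.update_self]
  · unfold mu
    rw [Function.update_of_ne hv, Function.update_of_ne hv]

theorem mu_val (π : Fin k × Fin k → Fin k) (z : V → Bool) (e : V → Option (Fin k × Fin k))
    (u : V) (hu : e u = none) (hz : z u = true) : mu π z e u = w1 k := by
  unfold mu
  rw [hu]
  simp [hz]

section one

variable (hk : 0 < k) (π : Fin k × Fin k → Fin k) (e : V → Option (Fin k × Fin k))
  (F : (V → Option (Fin k)) → ℝ)

theorem sec_none (z : V → Bool) (u : V) (hu : e u = none) (hz : z u = true) :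
    M (mu π z e) (sec F u none) = 1 / 2 * M (mu π (Function.update z u false) e) F := by
  rw [M_sec, mu_none π z e u hu, mu_val π z e u hu hz]
  rfl

theorem sec_some (z : V → Bool) (u : V) (hu : e u = none) (hz : z u = true) (d : Fin k × Fin k) :
    M (mu π z e) (sec F u (some (π d))) =
      1 / (2 * k) * M (mu π z (Function.update e u (some d))) F := by
  rw [M_sec, mu_some π z e u d, mu_val π z e u hu hz]
  rfl

include hk in
theorem sec_le (hF : ∀ a, 0 ≤ F a) (z : V → Bool) (u : V) (l : Option (Fin k)) :
    M (mu π z e) (sec F u l) ≤ M (mu π z e) F := by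
  apply M_mono (mu_isW hk π z e)
  intro a
  unfold sec
  split_ifs
  · exact le_rfl
  · exact hF a

include hk in
theorem upd_le (hF : ∀ a, 0 ≤ F a) (z : V → Bool) (u : V) (hu : e u = none) (hz : z u = true) :
    M (mu π (Function.update z u false) e) F ≤ 2 * M (mu π z e) F := by
  have h1 := sec_none π e F z u hu hz
  have h2 := sec_le hk π e F hF z u none
  linarith

include hk in
/-- the number of biased positions -/
theorem bad_le (hF0 : ∀ a, 0 ≤ F a) (hF1 : ∀ a, F a ≤ 1) (z : V → Bool) (l : Option (Fin k))
    (B : Finset V) (v τ : ℝ) (hv : (B.card : ℝ) ≤ v) (hτ : 0 ≤ τ)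
    (hB : ∀ u ∈ B, e u = none ∧ z u = true ∧
      M (mu π z e) (sec F u l) ≤ w1 k l / 8 * M (mu π z e) F) (y : ℝ) (hy0 : 0 ≤ y) (hy1 : y ≤ 1) :
    M (mu π z e) F * y * B.card ≤ 2 * τ / w1 k l * (M (mu π z e) F * y) + v * Real.exp (-τ) := by
  have hA0 := M_nonneg (mu_isW hk π z e) hF0
  have hA1 := M_le_one (mu_isW hk π z e) hF1
  have hρ : 0 < w1 k l := by
    have : (0 : ℝ) < k := by exact_mod_cast hk
    cases l <;> unfold w1 <;> positivity
  have he := Real.exp_pos (-τ)
  have hv0 : 0 ≤ v := le_trans (by positivity) hv
  by_cases h : Real.exp (-τ) ≤ M (mu π z e) F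
  · have h1 := bias (mu_isW hk π z e) hF0 hF1 B l (w1 k l) hρ.le
      (fun u hu => by rw [mu_val π z e u (hB u hu).1 (hB u hu).2.1]) (fun u hu => (hB u hu).2.2)
    have h2 := Real.exp_le_exp.1 (h.trans h1)
    have h3 : (B.card : ℝ) ≤ 2 * τ / w1 k l := by
      rw [le_div_iff₀ hρ]
      linarith
    have h4 := mul_le_mul_of_nonneg_left h3 (mul_nonneg hA0 hy0)
    have h5 : 0 ≤ v * Real.exp (-τ) := by positivity
    linarith
  · push Not at h
    have h1 : M (mu π z e) F * y ≤ Real.exp (-τ) := by nlinarith
    have h2 : M (mu π z e) F * y * B.card ≤ Real.exp (-τ) * v :=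
      mul_le_mul h1 hv (by positivity) he.le
    have h3 : 0 ≤ 2 * τ / w1 k l * (M (mu π z e) F * y) := by positivity
    linarith

end one

/-- reindexing -/
theorem reindex (u : V) (h : (V → Bool) → (V → Bool) → ℝ) :
    ∑ z with z u = true, h (Function.update z u false) z =
      ∑ z with z u = false, h z (Function.update z u true) := by
  apply sum_nbij' (fun z => Function.update z u false) (fun z => Function.update z u true)
  · intro z hz
    simp
  · intro z hz
    simp
  · intro z hz
    simp only [mem_filter, mem_univ, true_and] at hz
    simp [← hz]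
  · intro z hz
    simp only [mem_filter, mem_univ, true_and] at hz
    simp [← hz]
  · intro z hz
    simp only [mem_filter, mem_univ, true_and] at hz
    have : Function.update (Function.update z u false) u true = z := by
      simp [← hz]
    rw [this]

/-- the weight of the rectangle `F × G` in the state `e`, summed over the divisions `z` -/
noncomputable def Psi (e : V → Option (Fin k × Fin k)) (F G : (V → Option (Fin k)) → ℝ) : ℝ :=
  ∑ z : V → Bool, M (mu Prod.fst z e) F * M (mu Prod.snd (fun u => !z u) e) G

theorem not_upd (z : V → Bool) (u : V) (b : Bool) :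
    (fun v => !(Function.update z u b) v) = Function.update (fun v => !z v) u (!b) := by
  funext v
  by_cases hv : v = u
  · subst hv
    simp
  · simp [hv]

theorem Psi_upd (e : V → Option (Fin k × Fin k)) (F G : (V → Option (Fin k)) → ℝ) (u : V)
    (d : Fin k × Fin k) :
    Psi (Function.update e u (some d)) F G =
      2 * ∑ z : V → Bool with z u = true, M (mu Prod.fst z (Function.update e u (some d))) F *
        M (mu Prod.snd (fun u => !z u) (Function.update e u (some d))) G := by
  unfold Psi
  rw [← sum_filter_add_sum_filter_not univ (fun z : V → Bool => z u = true)]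
  have h1 : ∑ z : V → Bool with ¬ z u = true, M (mu Prod.fst z (Function.update e u (some d))) F *
        M (mu Prod.snd (fun u => !z u) (Function.update e u (some d))) G =
      ∑ z : V → Bool with z u = true, M (mu Prod.fst z (Function.update e u (some d))) F *
        M (mu Prod.snd (fun u => !z u) (Function.update e u (some d))) G := by
    have h2 := reindex u (fun z _ => M (mu Prod.fst z (Function.update e u (some d))) F *
        M (mu Prod.snd (fun u => !z u) (Function.update e u (some d))) G)
    simp only [Bool.not_eq_true]
    rw [← h2]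
    apply sum_congr rfl
    intro z _
    rw [not_upd, mu_upd, mu_upd]
  rw [h1]
  ring

open Classical in
theorem swap (Lv : Finset V) (P : (V → Bool) → V → Prop) (f : (V → Bool) → ℝ) (b : Bool) :
    ∑ u ∈ Lv, ∑ z : V → Bool with z u = b, (if P z u then f z else 0) =
      ∑ z : V → Bool, f z * (Lv.filter fun u => z u = b ∧ P z u).card := by
  simp only [sum_filter]
  rw [sum_comm]
  apply sum_congr rfl
  intro z _
  rw [card_filter]
  push_cast
  rw [mul_sum]
  apply sum_congr rfl
  intro u _
  by_cases h1 : z u = b <;> by_cases h2 : P z u <;> simp [h1, h2]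

theorem swap' (Lv : Finset V) (f : (V → Bool) → ℝ) (b : Bool) :
    ∑ u ∈ Lv, ∑ z : V → Bool with z u = b, f z =
      ∑ z : V → Bool, f z * (Lv.filter fun u => z u = b).card := by
  simp only [sum_filter]
  rw [sum_comm]
  apply sum_congr rfl
  intro z _
  rw [card_filter]
  push_cast
  rw [mul_sum]
  apply sum_congr rfl
  intro u _
  by_cases h1 : z u = b <;> simp [h1]

section main

variable (hk : 0 < k) (e : V → Option (Fin k × Fin k)) (F G : (V → Option (Fin k)) → ℝ)
  (hF0 : ∀ a, 0 ≤ F a) (hF1 : ∀ a, F a ≤ 1) (hG0 : ∀ a, 0 ≤ G a) (hG1 : ∀ a, G a ≤ 1)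

/-- the measure of the first side -/
noncomputable def AA (e : V → Option (Fin k × Fin k)) (F : (V → Option (Fin k)) → ℝ)
    (z : V → Bool) : ℝ := M (mu Prod.fst z e) F

/-- the measure of the second side -/
noncomputable def BB (e : V → Option (Fin k × Fin k)) (G : (V → Option (Fin k)) → ℝ)
    (z : V → Bool) : ℝ := M (mu Prod.snd (fun u => !z u) e) G

def PX (e : V → Option (Fin k × Fin k)) (F : (V → Option (Fin k)) → ℝ) (l : Option (Fin k))
    (z : V → Bool) (u : V) : Prop :=
  M (mu Prod.fst z e) (sec F u l) ≤ w1 k l / 8 * AA e F z

def PY (e : V → Option (Fin k × Fin k)) (G : (V → Option (Fin k)) → ℝ) (l : Option (Fin k))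
    (z : V → Bool) (u : V) : Prop :=
  M (mu Prod.snd (fun u => !z u) e) (sec G u l) ≤ w1 k l / 8 * BB e G z

include hk hF0 in
theorem AA_nonneg (z : V → Bool) : 0 ≤ AA e F z := M_nonneg (mu_isW hk _ z e) hF0
include hk hF1 in
theorem AA_le (z : V → Bool) : AA e F z ≤ 1 := M_le_one (mu_isW hk _ z e) hF1
include hk hG0 in
theorem BB_nonneg (z : V → Bool) : 0 ≤ BB e G z := M_nonneg (mu_isW hk _ _ e) hG0
include hk hG1 in
theorem BB_le (z : V → Bool) : BB e G z ≤ 1 := M_le_one (mu_isW hk _ _ e) hG1

theorem AA_upd (z : V → Bool) (u : V) (hu : e u = none) (hz : z u = true) :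
    AA e F (Function.update z u false) = 2 * M (mu Prod.fst z e) (sec F u none) := by
  rw [sec_none _ e F z u hu hz]
  unfold AA
  ring

theorem BB_upd (z : V → Bool) (u : V) (hu : e u = none) (hz : z u = false) :
    BB e G (Function.update z u true) =
      2 * M (mu Prod.snd (fun u => !z u) e) (sec G u none) := by
  rw [sec_none _ e G (fun u => !z u) u hu (by simp [hz])]
  unfold BB
  rw [not_upd]
  simp only [Bool.not_true]
  ring

open Classical in
include hk hF0 hG0 in
/-- the pointwise inequality -/
theorem point (i j : Fin k) (z : V → Bool) (u : V) (hu : e u = none) (hz : z u = true) :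
    1 / 256 * (AA e F (Function.update z u false) * BB e G z -
        (if PX e F (some i) z u then AA e F (Function.update z u false) * BB e G z else 0) -
        (if PY e G (some j) (Function.update z u false) u then
          AA e F (Function.update z u false) * BB e G z else 0)) ≤
      M (mu Prod.fst z (Function.update e u (some (i, j)))) F *
        M (mu Prod.snd (fun u => !z u) (Function.update e u (some (i, j)))) G := by
  have hkR : (0 : ℝ) < k := by exact_mod_cast hk
  have hai : 0 ≤ M (mu Prod.fst z (Function.update e u (some (i, j)))) F :=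
    M_nonneg (mu_isW hk _ _ _) hF0
  have hbj : 0 ≤ M (mu Prod.snd (fun u => !z u) (Function.update e u (some (i, j)))) G :=
    M_nonneg (mu_isW hk _ _ _) hG0
  have hA' := AA_nonneg hk e F hF0 (Function.update z u false)
  have hA := AA_nonneg hk e F hF0 z
  have hB' := BB_nonneg hk e G hG0 (Function.update z u false)
  have hB := BB_nonneg hk e G hG0 z
  have hprod := mul_nonneg hA' hB
  by_cases h1 : PX e F (some i) z u
  · rw [if_pos h1]
    have : 0 ≤ (if PY e G (some j) (Function.update z u false) u then
          AA e F (Function.update z u false) * BB e G z else 0) := by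
      split_ifs
      · exact hprod
      · exact le_rfl
    nlinarith [mul_nonneg hai hbj]
  · rw [if_neg h1]
    by_cases h2 : PY e G (some j) (Function.update z u false) u
    · rw [if_pos h2]
      nlinarith [mul_nonneg hai hbj]
    · rw [if_neg h2]
      -- both good
      unfold PX at h1
      unfold PY at h2
      push Not at h1 h2
      have e1 := sec_some Prod.fst e F z u hu hz (i, j)
      have hz' : (fun v => !(Function.update z u false) v) u = true := by simp
      have e2 := sec_some Prod.snd e G (fun v => !(Function.update z u false) v) u hu hz' (i, j)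
      rw [not_upd, mu_upd] at e2
      simp only [not_upd] at h2
      rw [e1] at h1
      rw [e2] at h2
      have g1 : AA e F z / 8 < M (mu Prod.fst z (Function.update e u (some (i, j)))) F := by
        simp only [w1] at h1
        have h3 : 1 / (2 * (k : ℝ)) * (AA e F z / 8) <
            1 / (2 * (k : ℝ)) * M (mu Prod.fst z (Function.update e u (some (i, j)))) F := by
          calc _ = 1 / (2 * (k : ℝ)) / 8 * AA e F z := by ring
            _ < _ := h1
        exact lt_of_mul_lt_mul_left h3 (by positivity)
      have g2 : BB e G (Function.update z u false) / 8 <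
          M (mu Prod.snd (fun u => !z u) (Function.update e u (some (i, j)))) G := by
        simp only [w1] at h2
        have h3 : 1 / (2 * (k : ℝ)) * (BB e G (Function.update z u false) / 8) <
            1 / (2 * (k : ℝ)) *
              M (mu Prod.snd (fun u => !z u) (Function.update e u (some (i, j)))) G := by
          calc _ = 1 / (2 * (k : ℝ)) / 8 * BB e G (Function.update z u false) := by ring
            _ < _ := h2
        exact lt_of_mul_lt_mul_left h3 (by positivity)
      have g3 : AA e F (Function.update z u false) ≤ 2 * AA e F z :=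
        upd_le hk Prod.fst e F hF0 z u hu hz
      have g4 : BB e G z ≤ 2 * BB e G (Function.update z u false) := by
        have h3 := upd_le hk Prod.snd e G hG0 (fun v => !(Function.update z u false) v) u hu hz'
        have h4 : Function.update (fun v => !(Function.update z u false) v) u false =
            fun v => !z v := by
          funext v
          by_cases hv : v = u
          · subst hv
            simp [hz]
          · simp [hv]
        rw [h4] at h3
        exact h3
      have g5 : AA e F (Function.update z u false) / 16 ≤
          M (mu Prod.fst z (Function.update e u (some (i, j)))) F := by linarith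
      have g6 : BB e G z / 16 ≤
          M (mu Prod.snd (fun u => !z u) (Function.update e u (some (i, j)))) G := by linarith
      have g7 := mul_le_mul g5 g6 (by positivity) hai
      calc _ = AA e F (Function.update z u false) / 16 * (BB e G z / 16) := by ring
        _ ≤ _ := g7

/-- the live positions -/
def live (e : V → Option (Fin k × Fin k)) : Finset V := univ.filter fun u => e u = none

theorem mem_live {e : V → Option (Fin k × Fin k)} {u : V} : u ∈ live e ↔ e u = none := by
  simp [live]

theorem psi_eq : Psi e F G = ∑ z : V → Bool, AA e F z * BB e G z := rfl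

open Classical in
include hk hF0 hF1 hG0 hG1 in
/-- few bad positions on the first side -/
theorem sumX (l : Option (Fin k)) (τ : ℝ) (hτ : 0 ≤ τ) :
    ∑ z : V → Bool, AA e F z * BB e G z *
      ((live e).filter fun u => z u = true ∧ PX e F l z u).card ≤
    2 * τ / w1 k l * Psi e F G + (live e).card * Real.exp (-τ) * 2 ^ Fintype.card V := by
  have h1 : ∀ z : V → Bool, AA e F z * BB e G z *
      ((live e).filter fun u => z u = true ∧ PX e F l z u).card ≤
      2 * τ / w1 k l * (AA e F z * BB e G z) + (live e).card * Real.exp (-τ) := by
    intro z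
    apply bad_le hk Prod.fst e F hF0 hF1 z l _ _ τ (by exact_mod_cast card_filter_le _ _) hτ
    · intro u hu
      rw [mem_filter, mem_live] at hu
      exact ⟨hu.1, hu.2.1, hu.2.2⟩
    · exact BB_nonneg hk e G hG0 z
    · exact BB_le hk e G hG1 z
  refine (sum_le_sum fun z _ => h1 z).trans ?_
  rw [sum_add_distrib, ← mul_sum, sum_const, card_univ, Fintype.card_fun, Fintype.card_bool,
    nsmul_eq_mul]
  push_cast
  rw [psi_eq]
  linarith

open Classical in
include hk hF0 hF1 hG0 hG1 in
/-- few bad positions on the second side -/
theorem sumY (l : Option (Fin k)) (τ : ℝ) (hτ : 0 ≤ τ) :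
    ∑ z : V → Bool, AA e F z * BB e G z *
      ((live e).filter fun u => z u = false ∧ PY e G l z u).card ≤
    2 * τ / w1 k l * Psi e F G + (live e).card * Real.exp (-τ) * 2 ^ Fintype.card V := by
  have h1 : ∀ z : V → Bool, AA e F z * BB e G z *
      ((live e).filter fun u => z u = false ∧ PY e G l z u).card ≤
      2 * τ / w1 k l * (AA e F z * BB e G z) + (live e).card * Real.exp (-τ) := by
    intro z
    have := bad_le hk Prod.snd e G hG0 hG1 (fun u => !z u) l
      ((live e).filter fun u => z u = false ∧ PY e G l z u) ((live e).card : ℝ) τ
      (by exact_mod_cast card_filter_le _ _) hτ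
      (by
        intro u hu
        rw [mem_filter, mem_live] at hu
        exact ⟨hu.1, by simp [hu.2.1], hu.2.2⟩) (AA e F z) (AA_nonneg hk e F hF0 z)
      (AA_le hk e F hF1 z)
    rw [mul_comm (AA e F z) (BB e G z)]
    exact this
  refine (sum_le_sum fun z _ => h1 z).trans ?_
  rw [sum_add_distrib, ← mul_sum, sum_const, card_univ, Fintype.card_fun, Fintype.card_bool,
    nsmul_eq_mul]
  push_cast
  rw [psi_eq]
  linarith

open Classical in
include hk hF0 hF1 hG0 hG1 in
/-- lower bound of the main term, first form -/
theorem mainX : ∑ z : V → Bool, AA e F z * BB e G z / 8 *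
      (((live e).filter fun u => z u = true).card -
        ((live e).filter fun u => z u = true ∧ PX e F none z u).card : ℝ) ≤
    ∑ u ∈ live e, ∑ z : V → Bool with z u = true, AA e F (Function.update z u false) * BB e G z := by
  have h1 : ∀ u ∈ live e, ∀ z ∈ univ.filter (fun z : V → Bool => z u = true),
      AA e F z * BB e G z / 8 -
        (if PX e F none z u then AA e F z * BB e G z / 8 else 0) ≤
        AA e F (Function.update z u false) * BB e G z := by
    intro u hu z hz
    rw [mem_live] at hu
    simp only [mem_filter, mem_univ, true_and] at hz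
    have hA := AA_nonneg hk e F hF0 z
    have hB := BB_nonneg hk e G hG0 z
    have hA' := AA_nonneg hk e F hF0 (Function.update z u false)
    by_cases h : PX e F none z u
    · rw [if_pos h]
      have := mul_nonneg hA' hB
      linarith
    · rw [if_neg h, AA_upd e F z u hu hz]
      unfold PX at h
      push Not at h
      simp only [w1] at h
      nlinarith [mul_le_mul_of_nonneg_right h.le hB]
  refine le_trans ?_ (sum_le_sum fun u hu => sum_le_sum fun z hz => h1 u hu z hz)
  simp only [sum_sub_distrib]
  rw [swap' (live e) (fun z => AA e F z * BB e G z / 8) true,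
    swap (live e) (fun z u => PX e F none z u) (fun z => AA e F z * BB e G z / 8) true,
    ← sum_sub_distrib]
  apply le_of_eq
  apply sum_congr rfl
  intro z _
  ring

open Classical in
include hk hF0 hF1 hG0 hG1 in
/-- lower bound of the main term, second form -/
theorem mainY : ∑ z : V → Bool, AA e F z * BB e G z / 8 *
      (((live e).filter fun u => z u = false).card -
        ((live e).filter fun u => z u = false ∧ PY e G none z u).card : ℝ) ≤
    ∑ u ∈ live e, ∑ z : V → Bool with z u = true, AA e F (Function.update z u false) * BB e G z := by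
  have h0 : ∀ u ∈ live e, ∑ z : V → Bool with z u = true,
      AA e F (Function.update z u false) * BB e G z =
      ∑ z : V → Bool with z u = false, AA e F z * BB e G (Function.update z u true) := by
    intro u _
    exact reindex u (fun z z' => AA e F z * BB e G z')
  rw [sum_congr rfl h0]
  have h1 : ∀ u ∈ live e, ∀ z ∈ univ.filter (fun z : V → Bool => z u = false),
      AA e F z * BB e G z / 8 -
        (if PY e G none z u then AA e F z * BB e G z / 8 else 0) ≤
        AA e F z * BB e G (Function.update z u true) := by
    intro u hu z hz
    rw [mem_live] at hu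
    simp only [mem_filter, mem_univ, true_and] at hz
    have hA := AA_nonneg hk e F hF0 z
    have hB := BB_nonneg hk e G hG0 z
    have hB' := BB_nonneg hk e G hG0 (Function.update z u true)
    by_cases h : PY e G none z u
    · rw [if_pos h]
      have := mul_nonneg hA hB'
      linarith
    · rw [if_neg h, BB_upd e G z u hu hz]
      unfold PY at h
      push Not at h
      simp only [w1] at h
      nlinarith [mul_le_mul_of_nonneg_left h.le hA]
  refine le_trans ?_ (sum_le_sum fun u hu => sum_le_sum fun z hz => h1 u hu z hz)
  simp only [sum_sub_distrib]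
  rw [swap' (live e) (fun z => AA e F z * BB e G z / 8) false,
    swap (live e) (fun z u => PY e G none z u) (fun z => AA e F z * BB e G z / 8) false,
    ← sum_sub_distrib]
  apply le_of_eq
  apply sum_congr rfl
  intro z _
  ring

open Classical in
include hk hF0 hF1 hG0 hG1 in
theorem lossX (i : Fin k) :
    ∑ u ∈ live e, ∑ z : V → Bool with z u = true,
      (if PX e F (some i) z u then AA e F (Function.update z u false) * BB e G z else 0) ≤
    2 * ∑ z : V → Bool, AA e F z * BB e G z *
      ((live e).filter fun u => z u = true ∧ PX e F (some i) z u).card := by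
  have h1 : ∀ u ∈ live e, ∀ z ∈ univ.filter (fun z : V → Bool => z u = true),
      (if PX e F (some i) z u then AA e F (Function.update z u false) * BB e G z else 0) ≤
      (if PX e F (some i) z u then 2 * (AA e F z * BB e G z) else 0) := by
    intro u hu z hz
    rw [mem_live] at hu
    simp only [mem_filter, mem_univ, true_and] at hz
    have hB := BB_nonneg hk e G hG0 z
    have h2 : AA e F (Function.update z u false) ≤ 2 * AA e F z :=
      upd_le hk Prod.fst e F hF0 z u hu hz
    split_ifs
    · nlinarith [mul_le_mul_of_nonneg_right h2 hB]
    · exact le_rfl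
  refine (sum_le_sum fun u hu => sum_le_sum fun z hz => h1 u hu z hz).trans ?_
  rw [swap (live e) (fun z u => PX e F (some i) z u) (fun z => 2 * (AA e F z * BB e G z)) true,
    mul_sum]
  apply le_of_eq
  apply sum_congr rfl
  intro z _
  ring

open Classical in
include hk hF0 hF1 hG0 hG1 in
theorem lossY (j : Fin k) :
    ∑ u ∈ live e, ∑ z : V → Bool with z u = true,
      (if PY e G (some j) (Function.update z u false) u then
        AA e F (Function.update z u false) * BB e G z else 0) ≤
    2 * ∑ z : V → Bool, AA e F z * BB e G z *
      ((live e).filter fun u => z u = false ∧ PY e G (some j) z u).card := by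
  have h0 : ∀ u ∈ live e, ∑ z : V → Bool with z u = true,
      (if PY e G (some j) (Function.update z u false) u then
        AA e F (Function.update z u false) * BB e G z else 0) =
      ∑ z : V → Bool with z u = false, (if PY e G (some j) z u then
        AA e F z * BB e G (Function.update z u true) else 0) := by
    intro u _
    exact reindex u (fun z z' => if PY e G (some j) z u then AA e F z * BB e G z' else 0)
  rw [sum_congr rfl h0]
  have h1 : ∀ u ∈ live e, ∀ z ∈ univ.filter (fun z : V → Bool => z u = false),
      (if PY e G (some j) z u then AA e F z * BB e G (Function.update z u true) else 0) ≤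
      (if PY e G (some j) z u then 2 * (AA e F z * BB e G z) else 0) := by
    intro u hu z hz
    rw [mem_live] at hu
    simp only [mem_filter, mem_univ, true_and] at hz
    have hA := AA_nonneg hk e F hF0 z
    have h2 : BB e G (Function.update z u true) ≤ 2 * BB e G z := by
      rw [BB_upd e G z u hu hz]
      have := sec_le hk Prod.snd e G hG0 (fun u => !z u) u none
      unfold BB
      linarith
    split_ifs
    · nlinarith [mul_le_mul_of_nonneg_left h2 hA]
    · exact le_rfl
  refine (sum_le_sum fun u hu => sum_le_sum fun z hz => h1 u hu z hz).trans ?_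
  rw [swap (live e) (fun z u => PY e G (some j) z u) (fun z => 2 * (AA e F z * BB e G z)) false,
    mul_sum]
  apply le_of_eq
  apply sum_congr rfl
  intro z _
  ring

open Classical in
include hk hF0 hF1 hG0 hG1 in
/-- **One step.** -/
theorem step (i j : Fin k) (τ : ℝ) (hτ : 0 ≤ τ) (hv : 1056 * k * τ ≤ (live e).card)
    (hv0 : 0 < (live e).card)
    (hE : 320 * (Real.exp (-τ) * 2 ^ Fintype.card V) ≤ Psi e F G) :
    ∃ u, e u = none ∧ Psi e F G / 4096 ≤ Psi (Function.update e u (some (i, j))) F G := by
  have hkR : (1 : ℝ) ≤ k := by exact_mod_cast hk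
  set v : ℝ := ((live e).card : ℝ) with hvdef
  set E : ℝ := Real.exp (-τ) * 2 ^ Fintype.card V with hEdef
  set Ψ : ℝ := Psi e F G with hΨ
  have hE0 : 0 < E := by positivity
  have hv0' : 0 < v := by rw [hvdef]; exact_mod_cast hv0
  set S0 : ℝ := ∑ u ∈ live e, ∑ z : V → Bool with z u = true,
    AA e F (Function.update z u false) * BB e G z with hS0
  -- total
  have htot : (1 / 128) * (S0 - 2 * (4 * k * τ * Ψ + v * E) - 2 * (4 * k * τ * Ψ + v * E)) ≤
      ∑ u ∈ live e, Psi (Function.update e u (some (i, j))) F G := by
    have h1 : ∀ u ∈ live e, 2 * ∑ z : V → Bool with z u = true,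
        1 / 256 * (AA e F (Function.update z u false) * BB e G z -
        (if PX e F (some i) z u then AA e F (Function.update z u false) * BB e G z else 0) -
        (if PY e G (some j) (Function.update z u false) u then
          AA e F (Function.update z u false) * BB e G z else 0)) ≤
        Psi (Function.update e u (some (i, j))) F G := by
      intro u hu
      rw [Psi_upd]
      apply mul_le_mul_of_nonneg_left _ (by norm_num)
      apply sum_le_sum
      intro z hz
      simp only [mem_filter, mem_univ, true_and] at hz
      exact point hk e F G hF0 hG0 i j z u (mem_live.1 hu) hz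
    refine le_trans ?_ (sum_le_sum h1)
    rw [← mul_sum]
    simp only [← mul_sum, sum_sub_distrib]
    have hX := sumX hk e F G hF0 hF1 hG0 hG1 (some i) τ hτ
    have hY := sumY hk e F G hF0 hF1 hG0 hG1 (some j) τ hτ
    have hX2 := lossX hk e F G hF0 hF1 hG0 hG1 i
    have hY2 := lossY hk e F G hF0 hF1 hG0 hG1 j
    have hw : 2 * τ / w1 k (some i) = 4 * k * τ := by
      unfold w1
      have : (k : ℝ) ≠ 0 := by positivity
      field_simp
      ring
    have hw' : 2 * τ / w1 k (some j) = 4 * k * τ := by
      unfold w1
      have : (k : ℝ) ≠ 0 := by positivity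
      field_simp
      ring
    rw [hw] at hX
    rw [hw'] at hY
    have hvE : ((live e).card : ℝ) * Real.exp (-τ) * 2 ^ Fintype.card V = v * E := by
      rw [hEdef, hvdef]; ring
    rw [hvE] at hX hY
    rw [← hΨ] at hX hY
    linarith
  -- lower bound of S0
  have hlow : (v * Ψ - 8 * τ * Ψ - 2 * (v * E)) / 16 ≤ S0 := by
    have m1 := mainX hk e F G hF0 hF1 hG0 hG1
    have m2 := mainY hk e F G hF0 hF1 hG0 hG1
    rw [← hS0] at m1 m2
    have hX := sumX hk e F G hF0 hF1 hG0 hG1 none τ hτ
    have hY := sumY hk e F G hF0 hF1 hG0 hG1 none τ hτ
    have hw : 2 * τ / w1 k none = 4 * τ := by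
      unfold w1
      ring
    rw [hw] at hX hY
    have hvE : ((live e).card : ℝ) * Real.exp (-τ) * 2 ^ Fintype.card V = v * E := by
      rw [hEdef, hvdef]; ring
    rw [hvE] at hX hY
    rw [← hΨ] at hX hY
    have hcard : ∀ z : V → Bool, (((live e).filter fun u => z u = true).card : ℝ) +
        ((live e).filter fun u => z u = false).card = v := by
      intro z
      rw [hvdef]
      have h1 := card_filter_add_card_filter_not (s := live e) (fun u => z u = true)
      have h2 : (live e).filter (fun u => z u = false) = (live e).filter (fun u => ¬ z u = true) := by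
        apply filter_congr
        intro u _
        simp
      rw [h2]
      exact_mod_cast h1
    have hs : ∑ z : V → Bool, AA e F z * BB e G z / 8 *
          (((live e).filter fun u => z u = true).card -
          ((live e).filter fun u => z u = true ∧ PX e F none z u).card : ℝ) +
        ∑ z : V → Bool, AA e F z * BB e G z / 8 *
          (((live e).filter fun u => z u = false).card -
          ((live e).filter fun u => z u = false ∧ PY e G none z u).card : ℝ) =
        v * Ψ / 8 - (∑ z : V → Bool, AA e F z * BB e G z *
          ((live e).filter fun u => z u = true ∧ PX e F none z u).card) / 8 -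
          (∑ z : V → Bool, AA e F z * BB e G z *
          ((live e).filter fun u => z u = false ∧ PY e G none z u).card) / 8 := by
      rw [hΨ, psi_eq, mul_sum, sum_div, sum_div, sum_div, ← sum_add_distrib, ← sum_sub_distrib,
        ← sum_sub_distrib]
      apply sum_congr rfl
      intro z _
      rw [← hcard z]
      ring
    linarith
  by_contra hcon
  push Not at hcon
  have hup : ∑ u ∈ live e, Psi (Function.update e u (some (i, j))) F G < v * (Ψ / 4096) := by
    have hne : (live e).Nonempty := card_pos.1 hv0
    calc ∑ u ∈ live e, Psi (Function.update e u (some (i, j))) F G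
        < ∑ u ∈ live e, Ψ / 4096 := sum_lt_sum_of_nonempty hne fun u hu => hcon u (mem_live.1 hu)
      _ = v * (Ψ / 4096) := by rw [sum_const, nsmul_eq_mul]
  have hΨ0 : 0 < Ψ := by linarith
  have h1 : k * τ * Ψ ≤ v / 1056 * Ψ := by
    apply mul_le_mul_of_nonneg_right _ hΨ0.le
    linarith
  have h2 : τ * Ψ ≤ k * τ * Ψ := by
    have : τ ≤ k * τ := by nlinarith
    exact mul_le_mul_of_nonneg_right this hΨ0.le
  have h3 : v * E ≤ v * (Ψ / 320) := by
    apply mul_le_mul_of_nonneg_left _ hv0'.le
    linarith
  have h4 : 0 < v * Ψ := mul_pos hv0' hΨ0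
  nlinarith

end main

end Pool.Agent.T2H60.HL
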