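import Mathlib

set_option autoImplicit false

/-!
# Set intersection: structures whose words are functions of polynomials in the answers
-/

namespace Pool.Agent.T2H60.HL

open Finset

/-- A query algorithm: it reads words (the next one depends on the contents `∈ K` of the words read
before) and answers yes or no. -/
inductive Tree (c : ℕ) (K : Type) : Type
  | answer (o : Bool) : Tree c K
  | probe (σ : Fin c) (next : K → Tree c K) : Tree c K

/-- the answer if the memory is `b` -/
def Tree.out {c : ℕ} {K : Type} (b : Fin c → K) : Tree c K → Bool
  | Tree.answer o => o
  | Tree.probe σ next => (next (b σ)).out b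

/-- the number of words read if the memory is `b` -/
def Tree.probes {c : ℕ} {K : Type} (b : Fin c → K) : Tree c K → ℕ
  | Tree.answer _ => 0
  | Tree.probe σ next => (next (b σ)).probes b + 1

/-- the set number `d.1` of the first half `X` and the set number `d.2` of the second half `Y` have
a common element -/
def Meet {k : ℕ} (X Y : Fin k → Finset ℕ) (d : Fin k × Fin k) : Prop := (X d.1 ∩ Y d.2).Nonempty

open Classical in
/-- the value of the polynomial `∑_M c M ∏_{d ∈ M} x_d` if `x_d = 1` for the pairs `d` which meet and
`x_d = 0` for the others -/
noncomputable def polyVal {k p : ℕ} (c : Finset (Fin k × Fin k) → ZMod p)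
    (X Y : Fin k → Finset ℕ) : ZMod p :=
  ∑ M : Finset (Fin k × Fin k), c M * ∏ d ∈ M, if Meet X Y d then 1 else 0

/-- A data structure for families of `2 k` sets (two halves of `k` sets), with `c` words of `w` bits.
The word number `σ` is an arbitrary function `content σ` of the values of `r` polynomials over the
field with `p` elements in the `k ^ 2` answers (with the coefficients `coef σ j M`), of `w` bits
`first σ` which depend arbitrarily on the first half, and of `w` bits `second σ` which depend
arbitrarily on the second half. -/
structure TableDS (k c w p r : ℕ) where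
  /-- the coefficients of the polynomials in the answers -/
  coef : Fin c → Fin r → Finset (Fin k × Fin k) → ZMod p
  /-- the parts which depend on the first half -/
  first : Fin c → (Fin k → Finset ℕ) → Fin (2 ^ w)
  /-- the parts which depend on the second half -/
  second : Fin c → (Fin k → Finset ℕ) → Fin (2 ^ w)
  /-- the way in which the words are made from these data -/
  content : Fin c → (Fin r → ZMod p) → Fin (2 ^ w) → Fin (2 ^ w) → Fin (2 ^ w)
  /-- the query algorithms -/
  query : Fin k × Fin k → Tree c (Fin (2 ^ w))

/-- the word number `σ` for the family with the halves `X` and `Y` -/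
noncomputable def TableDS.word {k c w p r : ℕ} (D : TableDS k c w p r) (X Y : Fin k → Finset ℕ)
    (σ : Fin c) : Fin (2 ^ w) :=
  D.content σ (fun j => polyVal (D.coef σ j) X Y) (D.first σ X) (D.second σ Y)

/-- the polynomials in the answers have degree at most `m` -/
def TableDS.DegreeLe {k c w p r : ℕ} (D : TableDS k c w p r) (m : ℕ) : Prop :=
  ∀ σ j M, m < M.card → D.coef σ j M = 0

open Classical in
/-- the number of the words in which answers enter -/
noncomputable def TableDS.space {k c w p r : ℕ} (D : TableDS k c w p r) : ℕ :=
  (univ.filter fun σ => ∃ j, ∃ M : Finset (Fin k × Fin k), M.Nonempty ∧ D.coef σ j M ≠ 0).card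

/-- all sets of the half are `n`-element subsets of `{0, …, u - 1}` -/
def IsHalf {k : ℕ} (n u : ℕ) (X : Fin k → Finset ℕ) : Prop := ∀ i, (X i).card = n ∧ X i ⊆ range u

/-- For all families of `n`-element subsets of `{0, …, u - 1}` and all pairs `d` the query algorithm
decides whether the sets of the pair meet, and if no pair of the family meets, then it reads at most
`t` words. -/
def TableDS.Solves {k c w p r : ℕ} (D : TableDS k c w p r) (n u t : ℕ) : Prop :=
  ∀ X Y : Fin k → Finset ℕ, IsHalf n u X → IsHalf n u Y → ∀ d,
    ((D.query d).out (D.word X Y) = true ↔ Meet X Y d) ∧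
    ((∀ e, ¬ Meet X Y e) → (D.query d).probes (D.word X Y) ≤ t)

end Pool.Agent.T2H60.HL
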