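import Pool.Agent.T2H60.HL.Fam
import Pool.Agent.T2H60.HL.CW
import Pool.Agent.T2H60.HL.TabDefs

set_option autoImplicit false
set_option linter.unusedSectionVars false

/-!
# Lower bound for tables of polynomials in the answers
-/

namespace Pool.Agent.T2H60.HL

open Finset

variable {k : ℕ}

open Classical in
/-- the pairs which meet -/
noncomputable def meets (X Y : Fin k → Finset ℕ) : Finset (Fin k × Fin k) :=
  univ.filter fun d => Meet X Y d

theorem polyVal_eq {p : ℕ} [Fact p.Prime] (c : Finset (Fin k × Fin k) → ZMod p) (X Y : Fin k → Finset ℕ) :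
    polyVal c X Y = qv c (meets X Y) := by
  classical
  unfold polyVal qv
  apply sum_congr rfl
  intro M _
  congr 1
  apply prod_congr rfl
  intro d _
  simp [meets]

/-- no position has two labels -/
def AllDisj {v : ℕ} (a b : Fin v → Option (Fin k)) : Prop := ∀ u, a u = none ∨ b u = none

theorem meets_allDisj {v n : ℕ} {a b : Fin v → Option (Fin k)} (h : AllDisj a b) :
    meets (fam n v a) (fam n (v + k * n) b) = ∅ := by
  classical
  unfold meets
  rw [filter_eq_empty_iff]
  rintro ⟨i, j⟩ _
  apply not_inter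
  rintro ⟨u, h1, h2⟩
  rcases h u with h | h
  · rw [h] at h1; cases h1
  · rw [h] at h2; cases h2

theorem exists_allDisj {v : ℕ} (F G : (Fin v → Option (Fin k)) → ℝ) (hF0 : ∀ a, 0 ≤ F a)
    (hG0 : ∀ a, 0 ≤ G a) (h : 0 < W F G) : ∃ a b, 0 < F a ∧ 0 < G b ∧ AllDisj a b := by
  obtain ⟨a, b, h1, h2, _, h4⟩ := exists_of_psi F G hF0 hG0 (fun _ => none) h
  exact ⟨a, b, h1, h2, fun u => h4 u rfl⟩

open Classical in
/-- the restriction of a function to an event -/
noncomputable def res {v : ℕ} (P : (Fin v → Option (Fin k)) → Prop)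
    (F : (Fin v → Option (Fin k)) → ℝ) (a : Fin v → Option (Fin k)) : ℝ := if P a then F a else 0

theorem res_pos {v : ℕ} {P : (Fin v → Option (Fin k)) → Prop} {F : (Fin v → Option (Fin k)) → ℝ}
    {a : Fin v → Option (Fin k)} (h : 0 < res P F a) : 0 < F a ∧ P a := by
  unfold res at h
  split_ifs at h with h1
  · exact ⟨h, h1⟩
  · exact absurd h (lt_irrefl 0)

/-- a rectangle, given by functions with values in `[0, 1]` -/
def Ok {v : ℕ} (F : (Fin v → Option (Fin k)) → ℝ) : Prop := (∀ a, 0 ≤ F a) ∧ ∀ a, F a ≤ 1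

theorem Ok.res {v : ℕ} {F : (Fin v → Option (Fin k)) → ℝ} (h : Ok F)
    (P : (Fin v → Option (Fin k)) → Prop) : Ok (res P F) := by
  refine ⟨fun a => ?_, fun a => ?_⟩
  · unfold HL.res
    split_ifs
    · exact h.1 a
    · exact le_rfl
  · unfold HL.res
    split_ifs
    · exact h.2 a
    · norm_num

/-- dividing a rectangle by the values of two functions -/
theorem W_split {v : ℕ} {K : Type} [Fintype K] (F G : (Fin v → Option (Fin k)) → ℝ)
    (f g : (Fin v → Option (Fin k)) → K) :
    W F G = ∑ x : K, ∑ y : K, W (res (fun a => f a = x) F) (res (fun b => g b = y) G) := by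
  classical
  unfold W Psi
  have h1 : ∀ (μ : Fin v → Option (Fin k) → ℝ) (H : (Fin v → Option (Fin k)) → ℝ)
      (f : (Fin v → Option (Fin k)) → K),
      M μ H = ∑ x : K, M μ (res (fun a => f a = x) H) := by
    intro μ H f
    unfold M
    rw [sum_comm]
    apply sum_congr rfl
    intro a _
    rw [← sum_mul]
    congr 1
    simp [res]
  rw [sum_congr rfl fun z _ => by rw [h1 (mu Prod.fst z (fun _ => none)) F f,
    h1 (mu Prod.snd (fun u => !z u) (fun _ => none)) G g]]
  simp only [sum_mul_sum]
  rw [sum_comm]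
  apply sum_congr rfl
  intro x _
  rw [sum_comm]

/-- a part of a rectangle which is not too small -/
theorem exists_part {v : ℕ} {K : Type} [Fintype K] [Nonempty K] (F G : (Fin v → Option (Fin k)) → ℝ)
    (f g : (Fin v → Option (Fin k)) → K) :
    ∃ x y : K, W F G / (Fintype.card K : ℝ) ^ 2 ≤
      W (res (fun a => f a = x) F) (res (fun b => g b = y) G) := by
  by_contra hcon
  push Not at hcon
  have h1 := W_split F G f g
  have h2 : ∑ x : K, ∑ y : K, W (res (fun a => f a = x) F) (res (fun b => g b = y) G) <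
      ∑ x : K, ∑ y : K, W F G / (Fintype.card K : ℝ) ^ 2 := by
    apply sum_lt_sum_of_nonempty univ_nonempty
    intro x _
    apply sum_lt_sum_of_nonempty univ_nonempty
    intro y _
    exact hcon x y
  rw [← h1] at h2
  simp only [sum_const, card_univ, nsmul_eq_mul] at h2
  have hK : (Fintype.card K : ℝ) ≠ 0 := by
    have : 0 < Fintype.card K := Fintype.card_pos
    positivity
  have h3 : (Fintype.card K : ℝ) * ((Fintype.card K : ℝ) * (W F G / (Fintype.card K : ℝ) ^ 2)) =
      W F G := by
    field_simp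
  rw [h3] at h2
  exact lt_irrefl _ h2

/-- following the query algorithm on the instances without intersections -/
theorem follow {c w p r n v : ℕ} [Fact p.Prime] (D : TableDS k c w p r) :
    ∀ (t : ℕ) (T : Tree c (Fin (2 ^ w))) (F G : (Fin v → Option (Fin k)) → ℝ) (δ : ℝ), Ok F → Ok G →
    0 < δ → δ ≤ W F G →
    (∀ a b, 0 < F a → 0 < G b → AllDisj a b →
      T.probes (D.word (fam n v a) (fam n (v + k * n) b)) ≤ t) →
    ∃ (F' G' : (Fin v → Option (Fin k)) → ℝ) (π : Finset (Fin c)) (o : Bool), Ok F' ∧ Ok G' ∧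
      (∀ a, 0 < F' a → 0 < F a) ∧ (∀ b, 0 < G' b → 0 < G b) ∧
      π.card ≤ t ∧ δ / ((2 : ℝ) ^ w) ^ (2 * t) ≤ W F' G' ∧
      ∀ a b, 0 < F' a → 0 < G' b →
        (∀ σ ∈ π, ∀ j, qv (D.coef σ j) (meets (fam n v a) (fam n (v + k * n) b)) =
          qv (D.coef σ j) ∅) →
        T.out (D.word (fam n v a) (fam n (v + k * n) b)) = o := by
  classical
  intro t T
  have hp1 : (1 : ℝ) ≤ (2 : ℝ) ^ w := one_le_pow₀ (by norm_num)
  have hp0 : (0 : ℝ) < (2 : ℝ) ^ w := by linarith
  induction T generalizing t with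
  | answer o =>
    intro F G δ hF hG hδ hW _
    refine ⟨F, G, ∅, o, hF, hG, fun a h => h, fun a h => h, by simp, ?_, ?_⟩
    · refine le_trans ?_ hW
      apply div_le_self hδ.le
      exact one_le_pow₀ hp1
    · intro a b _ _ _
      rfl
  | probe σ next ih =>
    intro F G δ hF hG hδ hW ht
    cases t with
    | zero =>
      exfalso
      obtain ⟨a, b, h1, h2, h3⟩ := exists_allDisj F G hF.1 hG.1 (lt_of_lt_of_le hδ hW)
      have := ht a b h1 h2 h3
      simp [Tree.probes] at this
    | succ t =>
      obtain ⟨x, y, hxy⟩ := exists_part F G (fun a => D.first σ (fam n v a))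
        (fun b => D.second σ (fam n (v + k * n) b))
      rw [Fintype.card_fin] at hxy
      push_cast at hxy
      have hW1 : δ / ((2 : ℝ) ^ w) ^ 2 ≤ W (res (fun a => D.first σ (fam n v a) = x) F)
          (res (fun b => D.second σ (fam n (v + k * n) b) = y) G) := by
        refine le_trans ?_ hxy
        exact div_le_div_of_nonneg_right hW (by positivity)
      obtain ⟨F', G', π, o, q1, q2, q3, q4, q5, q6, q7⟩ :=
        ih (D.content σ (fun j => qv (D.coef σ j) ∅) x y) t
        (res (fun a => D.first σ (fam n v a) = x) F)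
        (res (fun b => D.second σ (fam n (v + k * n) b) = y) G)
        (δ / ((2 : ℝ) ^ w) ^ 2) (hF.res _) (hG.res _) (by positivity) hW1 (by
          intro a b ha hb hab
          obtain ⟨ha1, ha2⟩ := res_pos ha
          obtain ⟨hb1, hb2⟩ := res_pos hb
          have h1 := ht a b ha1 hb1 hab
          have h2 : D.word (fam n v a) (fam n (v + k * n) b) σ =
              D.content σ (fun j => qv (D.coef σ j) ∅) x y := by
            unfold TableDS.word
            rw [ha2, hb2]
            congr 1
            funext j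
            rw [polyVal_eq, meets_allDisj hab]
          simp only [Tree.probes] at h1
          rw [h2] at h1
          omega)
      refine ⟨F', G', insert σ π, o, q1, q2, fun a h => (res_pos (q3 a h)).1,
        fun b h => (res_pos (q4 b h)).1, ?_, ?_, ?_⟩
      · have := card_insert_le σ π
        omega
      · refine le_trans (le_of_eq ?_) q6
        rw [div_div, ← pow_add]
        congr 2
        ring
      · intro a b ha hb hπ
        have h1 := q7 a b ha hb fun σ' hσ' => hπ σ' (mem_insert_of_mem hσ')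
        have h2 : D.word (fam n v a) (fam n (v + k * n) b) σ =
            D.content σ (fun j => qv (D.coef σ j) ∅) x y := by
          unfold TableDS.word
          rw [(res_pos (q3 a ha)).2, (res_pos (q4 b hb)).2]
          congr 1
          funext j
          rw [polyVal_eq, hπ σ (mem_insert_self σ π) j]
        simp only [Tree.out]
        rw [h2]
        exact h1

theorem W_one {v : ℕ} (hk : 0 < k) :
    W (fun _ : Fin v → Option (Fin k) => (1 : ℝ)) (fun _ => 1) = 2 ^ v := by
  unfold W Psi
  have h1 : ∀ z : Fin v → Bool, M (mu Prod.fst z (fun _ => none))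
      (fun _ : Fin v → Option (Fin k) => (1 : ℝ)) *
      M (mu Prod.snd (fun u => !z u) (fun _ => none)) (fun _ : Fin v → Option (Fin k) => (1 : ℝ)) =
      1 := by
    intro z
    rw [M_one (mu_isW hk _ _ _), M_one (mu_isW hk _ _ _), one_mul]
  rw [sum_congr rfl fun z _ => h1 z]
  simp

/-- numerical facts -/
theorem nums (m0 w t len n v k : ℕ) (hk : 0 < k) (hm0 : 1 ≤ m0) (ht : t * w ≤ m0)
    (hlen : len ≤ m0) (hn : 20000 * m0 ≤ n) (hv : v = 19009 * k * m0) :
    1056 * (k : ℝ) * (18 * m0) + len ≤ v ∧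
    640 * Real.exp (-(18 * m0 : ℝ)) * 4096 ^ len ≤ 1 / ((2 : ℝ) ^ w) ^ (2 * t) ∧
    4 * (len : ℝ) * Real.exp ((v : ℝ) / k - n) ≤ 1 / ((2 : ℝ) ^ w) ^ (2 * t) := by
  have hkR : (1 : ℝ) ≤ k := by exact_mod_cast hk
  have hmR : (1 : ℝ) ≤ m0 := by exact_mod_cast hm0
  have hlR : (len : ℝ) ≤ m0 := by exact_mod_cast hlen
  have hnR : 20000 * (m0 : ℝ) ≤ n := by exact_mod_cast hn
  have hvR : (v : ℝ) = 19009 * k * m0 := by rw [hv]; push_cast; ring
  have he : (2.7 : ℝ) ≤ Real.exp 1 := by
    have := Real.exp_one_gt_d9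
    linarith
  have hpow : ((2 : ℝ) ^ w) ^ (2 * t) ≤ Real.exp (2 * m0) := by
    have h1 : (2 : ℝ) ≤ Real.exp 1 := by linarith
    calc ((2 : ℝ) ^ w) ^ (2 * t) = (2 : ℝ) ^ (w * (2 * t)) := (pow_mul _ _ _).symm
      _ ≤ (Real.exp 1) ^ (w * (2 * t)) := pow_le_pow_left₀ (by norm_num) h1 _
      _ = Real.exp (2 * ((t * w : ℕ) : ℝ)) := by
          rw [← Real.exp_nat_mul]
          congr 1
          push_cast
          ring
      _ ≤ Real.exp (2 * m0) := by
          apply Real.exp_le_exp.2
          have : ((t * w : ℕ) : ℝ) ≤ m0 := by exact_mod_cast ht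
          linarith
  have hpos : (0 : ℝ) < ((2 : ℝ) ^ w) ^ (2 * t) := by positivity
  refine ⟨?_, ?_, ?_⟩
  · rw [hvR]
    nlinarith
  · rw [le_div_iff₀ hpos]
    have h1 : (640 : ℝ) ≤ Real.exp (7 * m0) := by
      calc (640 : ℝ) ≤ 2.7 ^ 7 := by norm_num
        _ ≤ (Real.exp 1) ^ 7 := pow_le_pow_left₀ (by norm_num) he 7
        _ = Real.exp 7 := by rw [← Real.exp_nat_mul]; norm_num
        _ ≤ _ := Real.exp_le_exp.2 (by linarith)
    have h2 : (4096 : ℝ) ^ len ≤ Real.exp (9 * m0) := by
      calc (4096 : ℝ) ^ len ≤ (Real.exp 9) ^ len := by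
            apply pow_le_pow_left₀ (by norm_num)
            calc (4096 : ℝ) ≤ 2.7 ^ 9 := by norm_num
              _ ≤ (Real.exp 1) ^ 9 := pow_le_pow_left₀ (by norm_num) he 9
              _ = Real.exp 9 := by rw [← Real.exp_nat_mul]; norm_num
        _ = Real.exp (9 * len) := by rw [← Real.exp_nat_mul]; congr 1; ring
        _ ≤ _ := Real.exp_le_exp.2 (by linarith)
    calc 640 * Real.exp (-(18 * m0 : ℝ)) * 4096 ^ len * ((2 : ℝ) ^ w) ^ (2 * t)
        ≤ Real.exp (7 * m0) * Real.exp (-(18 * m0 : ℝ)) * Real.exp (9 * m0) * Real.exp (2 * m0) := by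
          gcongr
      _ = Real.exp 0 := by
          rw [← Real.exp_add, ← Real.exp_add, ← Real.exp_add]
          congr 1
          ring
      _ = 1 := Real.exp_zero
  · rw [le_div_iff₀ hpos]
    have h1 : 4 * (len : ℝ) ≤ Real.exp (4 * m0) := by
      have := Real.add_one_le_exp (4 * (m0 : ℝ))
      linarith
    have h2 : (v : ℝ) / k = 19009 * m0 := by
      rw [hvR]
      field_simp
    rw [h2]
    calc 4 * (len : ℝ) * Real.exp (19009 * m0 - n) * ((2 : ℝ) ^ w) ^ (2 * t)
        ≤ Real.exp (4 * m0) * Real.exp (19009 * m0 - n) * Real.exp (2 * m0) := by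
          gcongr
      _ = Real.exp (19015 * m0 - n) := by
          rw [← Real.exp_add, ← Real.exp_add]
          congr 1
          ring
      _ ≤ Real.exp 0 := by
          apply Real.exp_le_exp.2
          linarith
      _ = 1 := Real.exp_zero

/-- **Words made from polynomials of low degree in the answers cannot save space.** -/
theorem lowDegree (k c w p r m t n u : ℕ) [Fact p.Prime]
    (hn : 20000 * (t * (r * (m * (p - 1)) + w) + 1) ≤ n) (hu : 3 * k * n ≤ u)
    (D : TableDS k c w p r) (hdeg : D.DegreeLe m) (hD : D.Solves n u t) :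
    k ^ 2 ≤ m * (p - 1) * (r * D.space) := by
  classical
  by_contra hcon
  push Not at hcon
  have hk : 0 < k := by
    have h2 : 0 < k ^ 2 := lt_of_le_of_lt (Nat.zero_le _) hcon
    exact Nat.pos_of_ne_zero fun h => by
      have h3 : k ^ 2 = 0 := by rw [pow_eq_zero_iff (by norm_num)]; exact h
      omega
  set J : Finset (Fin c) :=
    univ.filter fun σ => ∃ j, ∃ M : Finset (Fin k × Fin k), M.Nonempty ∧ D.coef σ j M ≠ 0 with hJ
  have hJc : J.card = D.space := by
    rw [hJ]
    unfold TableDS.space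
    congr
  have hdeg' : ∀ (i : Fin c × Fin r) (M : Finset (Fin k × Fin k)), m < M.card →
      D.coef i.1 i.2 M = 0 := fun i M h => hdeg i.1 i.2 M h
  -- a pattern which no word distinguishes from the empty pattern
  obtain ⟨L, hL, hL2⟩ := cwOne m (J ×ˢ (univ : Finset (Fin r))) (fun i => D.coef i.1 i.2) hdeg' (by
    rw [card_product, hJc, Fintype.card_prod, Fintype.card_fin, card_univ, Fintype.card_fin]
    calc D.space * r * (m * (p - 1)) = m * (p - 1) * (r * D.space) := by ring
      _ < k ^ 2 := hcon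
      _ = k * k := by ring)
  have hall : ∀ σ j, qv (D.coef σ j) L = qv (D.coef σ j) ∅ := by
    intro σ j
    by_cases hσ : σ ∈ J
    · exact hL2 (σ, j) (mem_product.2 ⟨hσ, mem_univ _⟩)
    · rw [hJ, mem_filter] at hσ
      push Not at hσ
      have h0 := hσ (mem_univ _) j
      unfold qv
      apply sum_congr rfl
      intro M _
      rcases M.eq_empty_or_nonempty with hM | hM
      · rw [hM]
        simp
      · rw [h0 M hM]
        simp
  obtain ⟨d0, hd0⟩ := hL
  -- follow the query `d0`
  set m0 : ℕ := t * (r * (m * (p - 1)) + w) + 1 with hm0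
  set v : ℕ := 19009 * k * m0 with hv
  have hvu : v + 2 * (k * n) ≤ u := by
    have h1 : v ≤ k * n := by
      rw [hv]
      calc 19009 * k * m0 ≤ 20000 * k * m0 := by
            apply Nat.mul_le_mul_right
            omega
        _ = k * (20000 * m0) := by ring
        _ ≤ k * n := Nat.mul_le_mul_left _ hn
    calc v + 2 * (k * n) ≤ k * n + 2 * (k * n) := by omega
      _ = 3 * k * n := by ring
      _ ≤ u := hu
  have hX : ∀ a : Fin v → Option (Fin k), IsHalf n u (fam n v a) := by
    intro a i
    refine ⟨card_fam n v v le_rfl a i, fun x hx => mem_range.2 ?_⟩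
    exact fam_lt (by omega) (by omega) hx
  have hY : ∀ a : Fin v → Option (Fin k), IsHalf n u (fam n (v + k * n) a) := by
    intro a i
    refine ⟨card_fam n v _ (by omega) a i, fun x hx => mem_range.2 ?_⟩
    exact fam_lt (by omega) (by omega) hx
  have h2v : (0 : ℝ) < 2 ^ v := by positivity
  have hok : Ok (fun _ : Fin v → Option (Fin k) => (1 : ℝ)) :=
    ⟨fun _ => by norm_num, fun _ => le_rfl⟩
  obtain ⟨F, G, π, o, hF, hG, _, _, hπ, hW, hout⟩ := follow (n := n) (v := v) D t (D.query d0)
    (fun _ => 1) (fun _ => 1) (2 ^ v) hok hok h2v (W_one hk).ge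
    (fun a b _ _ hab => (hD _ _ (hX a) (hY b) d0).2 (fun e he => by
      have h1 : e ∈ meets (fam n v a) (fam n (v + k * n) b) := by
        simp only [meets, mem_filter, mem_univ, true_and]
        exact he
      rw [meets_allDisj hab] at h1
      simp at h1))
  have hpp : (0 : ℝ) < ((2 : ℝ) ^ w) ^ (2 * t) := by positivity
  -- the answer is no
  obtain ⟨a0, b0, ha0, hb0, hab0⟩ := exists_allDisj F G hF.1 hG.1
    (lt_of_lt_of_le (by positivity) hW)
  have ho : o = false := by
    have h1 := hout a0 b0 ha0 hb0 (fun σ _ j => by rw [meets_allDisj hab0])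
    have h2 := (hD _ _ (hX a0) (hY b0) d0).1
    rw [h1] at h2
    by_contra hne
    rw [Bool.not_eq_false] at hne
    have h3 : d0 ∈ meets (fam n v a0) (fam n (v + k * n) b0) := by
      simp only [meets, mem_filter, mem_univ, true_and]
      exact h2.1 hne
    rw [meets_allDisj hab0] at h3
    simp at h3
  -- a small pattern
  obtain ⟨L', hd0', hL'c, hL'⟩ := cwTwo m (π ×ˢ (univ : Finset (Fin r)))
    (fun i => D.coef i.1 i.2) hdeg' d0 L.card L le_rfl hd0 (fun i _ => hall i.1 i.2)
  have hlen : L'.toList.length ≤ m0 := by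
    rw [length_toList]
    refine hL'c.trans ?_
    rw [hm0, card_product, card_univ, Fintype.card_fin]
    apply Nat.add_le_add_right
    calc π.card * r * (m * (p - 1)) = π.card * (r * (m * (p - 1))) := by ring
      _ ≤ t * (r * (m * (p - 1)) + w) := Nat.mul_le_mul hπ (by omega)
  obtain ⟨n1, n2, n3⟩ := nums m0 w t L'.toList.length n v k hk (by omega) (by
    rw [hm0]
    have : t * w ≤ t * (r * (m * (p - 1)) + w) := Nat.mul_le_mul_left _ (by omega)
    omega) hlen hn hv
  obtain ⟨a, b, ha, hb, hab, hsz⟩ := hitSize hk F G hF.1 hF.2 hG.1 hG.2 L'.toList n (18 * m0)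
    (1 / ((2 : ℝ) ^ w) ^ (2 * t)) (by positivity) (by rw [Fintype.card_fin]; exact n1) n2
    (by rw [Fintype.card_fin]; exact n3) (by
      rw [Fintype.card_fin]
      refine le_trans (le_of_eq ?_) hW
      ring)
  have hmeet : meets (fam n v a) (fam n (v + k * n) b) = L' := by
    ext ⟨i, j⟩
    simp only [meets, mem_filter, mem_univ, true_and]
    rw [← mem_toList, hab i j]
    constructor
    · intro h
      by_contra hcon
      exact not_inter a b i j hcon h
    · intro h
      have h1 := (hab i j).2 h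
      exact inter_of a b i j h (hsz _ h1).1 (hsz _ h1).2
  have h1 := hout a b ha hb (fun σ hσ j => by
    rw [hmeet]
    exact hL' (σ, j) (mem_product.2 ⟨hσ, mem_univ _⟩))
  have h2 := (hD _ _ (hX a) (hY b) d0).1
  rw [h1, ho] at h2
  have h3 : d0 ∈ meets (fam n v a) (fam n (v + k * n) b) := by
    rw [hmeet]
    exact hd0'
  simp only [meets, mem_filter, mem_univ, true_and] at h3
  exact absurd (h2.2 h3) (by simp)

end Pool.Agent.T2H60.HL
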